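import Pool.Agent.H84.BlumDefs

/-!
# Finite approximations to oracle partial recursive functionals
-/

namespace Pool.Agent.H84.Blum

/-- first success among `f 0, …, f (n-1)` -/
def bfs {β : Type*} (f : ℕ → Option β) : ℕ → Option β
  | 0 => none
  | n + 1 => bfs f n <|> f n

theorem bfs_eq_none {β : Type*} {f : ℕ → Option β} {n : ℕ} :
    bfs f n = none ↔ ∀ m < n, f m = none := by
  induction n with
  | zero => simp [bfs]
  | succ n ih =>
    simp only [bfs, Option.orElse_eq_orElse, Option.orElse_eq_or, Option.or_eq_none_iff, ih]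
    constructor
    · rintro ⟨h1, h2⟩ m hm
      rcases Nat.lt_succ_iff_lt_or_eq.1 hm with h | rfl
      · exact h1 m h
      · exact h2
    · intro h
      exact ⟨fun m hm => h m (by omega), h n (by omega)⟩

theorem bfs_eq_some {β : Type*} {f : ℕ → Option β} {n : ℕ} {b : β} :
    bfs f n = some b ↔ ∃ m < n, f m = some b ∧ ∀ k < m, f k = none := by
  induction n with
  | zero => simp [bfs]
  | succ n ih =>
    simp only [bfs, Option.orElse_eq_orElse, Option.orElse_eq_or, Option.or_eq_some_iff, ih]
    constructor
    · rintro (⟨m, hm, h⟩ | ⟨h1, h2⟩)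
      · exact ⟨m, by omega, h⟩
      · exact ⟨n, by omega, h2, bfs_eq_none.1 h1⟩
    · rintro ⟨m, hm, h1, h2⟩
      rcases Nat.lt_succ_iff_lt_or_eq.1 hm with h | rfl
      · exact Or.inl ⟨m, h, h1, h2⟩
      · exact Or.inr ⟨bfs_eq_none.2 h2, h1⟩

theorem bfs_isSome {β : Type*} {f : ℕ → Option β} {n : ℕ} :
    (bfs f n).isSome ↔ ∃ m < n, (f m).isSome := by
  rw [← not_iff_not]
  simp only [Bool.not_eq_true, Option.isSome_eq_false_iff, Option.isNone_iff_eq_none, bfs_eq_none]
  push Not
  simp

theorem bfs_congr {β : Type*} {f g : ℕ → Option β} {n : ℕ} (h : ∀ m < n, f m = g m) :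
    bfs f n = bfs g n := by
  induction n with
  | zero => rfl
  | succ n ih =>
    simp only [bfs]
    rw [ih (fun m hm => h m (by omega)), h n (by omega)]

theorem bfs_comp {α β : Type*} [Primcodable α] [Primcodable β] {f : α → ℕ → Option β}
    {n : α → ℕ} (hf : Computable₂ f) (hn : Computable n) :
    Computable fun a => bfs (f a) (n a) := by
  have h : Computable fun a => (Nat.rec (none : Option β)
      (fun y IH => IH <|> f a y) (n a) : Option β) := by
    refine Computable.nat_rec (f := n) (g := fun _ => (none : Option β))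
      (h := fun a p => p.2 <|> f a p.1) hn (Computable.const _) ?_
    exact (Primrec.option_orElse.to_comp.comp (Computable.snd.comp Computable.snd)
      (hf.comp Computable.fst (Computable.fst.comp Computable.snd))).to₂
  refine h.of_eq fun a => ?_
  generalize n a = N
  induction N with
  | zero => rfl
  | succ N ih => simp only [bfs, ← ih]

open Classical in
/-- the prefix of length `n` of (the characteristic function of) `X` -/
noncomputable def pre (X : Set ℕ) (n : ℕ) : List Bool := (List.range n).map fun m => decide (m ∈ X)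

@[simp] theorem pre_length (X : Set ℕ) (n : ℕ) : (pre X n).length = n := by simp [pre]

theorem pre_succ (X : Set ℕ) (n : ℕ) [Decidable (n ∈ X)] :
    pre X (n + 1) = pre X n ++ [decide (n ∈ X)] := by
  simp [pre, List.range_succ]

theorem pre_prefix (X : Set ℕ) {m n : ℕ} (h : m ≤ n) : pre X m <+: pre X n := by
  induction n, h using Nat.le_induction with
  | base => exact List.prefix_rfl
  | succ n hmn ih =>
    classical
    rw [pre_succ]
    exact ih.trans (List.prefix_append _ _)

theorem pre_getElem? (X : Set ℕ) {m n : ℕ} (h : m < n) [Decidable (m ∈ X)] :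
    (pre X n)[m]? = some (decide (m ∈ X)) := by
  simp [pre, h]

/-- A computable, monotone system of finite approximations to a functional. -/
structure Approx (F : Set ℕ → ℕ →. ℕ) (u : List Bool → ℕ → Option ℕ) : Prop where
  comp : Computable₂ u
  mono : ∀ {σ τ : List Bool} {x v : ℕ}, σ <+: τ → u σ x = some v → u τ x = some v
  spec : ∀ {X : Set ℕ} {x v : ℕ}, v ∈ F X x ↔ ∃ n, u (pre X n) x = some v

/-- auxiliary step for the `rfind` case -/
def rstep (o : Option ℕ) (n : ℕ) : Option (Option ℕ) :=
  Option.casesOn o (some none) (fun v => cond (v == 0) (some (some n)) none)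

theorem rstep_comp : Computable₂ rstep := by
  refine Computable.option_casesOn (o := fun p : Option ℕ × ℕ => p.1)
    (f := fun _ => (some none : Option (Option ℕ)))
    (g := fun p v => cond (v == 0) (some (some p.2)) none) Computable.fst (Computable.const _) ?_
  refine Computable.cond ?_ ?_ (Computable.const _)
  · exact Primrec.beq.to_comp.comp Computable.snd (Computable.const 0)
  · exact Computable.option_some.comp (Computable.option_some.comp
      (Computable.snd.comp Computable.fst))

theorem rstep_eq_none {o : Option ℕ} {n : ℕ} : rstep o n = none ↔ ∃ w, o = some (w + 1) := by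
  rcases o with _ | _ | w <;> simp [rstep]

theorem rstep_eq_some_some {o : Option ℕ} {n m : ℕ} :
    rstep o n = some (some m) ↔ o = some 0 ∧ m = n := by
  rcases o with _ | _ | w <;> simp [rstep, eq_comm]

theorem bfs_rstep {g : ℕ → Option ℕ} {N v : ℕ} :
    (bfs (fun n => rstep (g n) n) N).join = some v ↔
      v < N ∧ g v = some 0 ∧ ∀ k < v, ∃ w, g k = some (w + 1) := by
  simp only [Option.join_eq_some_iff, bfs_eq_some, rstep_eq_none, rstep_eq_some_some]
  constructor
  · rintro ⟨m, hm, ⟨h1, rfl⟩, h2⟩
    exact ⟨hm, h1, h2⟩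
  · rintro ⟨hm, h1, h2⟩
    exact ⟨v, hm, ⟨h1, rfl⟩, h2⟩

theorem OraclePartrec.approx {F : Set ℕ → ℕ →. ℕ} (hF : OraclePartrec F) :
    ∃ u, Approx F u := by
  induction hF with
  | zero =>
    refine ⟨fun _ _ => some 0, ⟨Computable.const _, fun _ h => h, ?_⟩⟩
    intro X x v
    simp [eq_comm]
  | succ =>
    refine ⟨fun _ x => some (x + 1), ⟨?_, fun _ h => h, ?_⟩⟩
    · exact (Computable.option_some.comp (Computable.succ.comp Computable.snd)).to₂
    intro X x v
    simp [eq_comm]
  | left =>
    refine ⟨fun _ x => some x.unpair.1, ⟨?_, fun _ h => h, ?_⟩⟩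
    · exact (Computable.option_some.comp
        (Computable.fst.comp (Computable.unpair.comp Computable.snd))).to₂
    intro X x v
    simp [eq_comm]
  | right =>
    refine ⟨fun _ x => some x.unpair.2, ⟨?_, fun _ h => h, ?_⟩⟩
    · exact (Computable.option_some.comp
        (Computable.snd.comp (Computable.unpair.comp Computable.snd))).to₂
    intro X x v
    simp [eq_comm]
  | oracle =>
    refine ⟨fun σ x => (σ[x]?).map fun b => cond b 1 0, ⟨?_, ?_, ?_⟩⟩
    · refine Computable.option_map ?_ ?_
      · exact Computable.list_getElem?.comp Computable.fst Computable.snd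
      · exact (Computable.cond Computable.snd (Computable.const _) (Computable.const _)).to₂
    · intro σ τ x v h hv
      simp only [Option.map_eq_some_iff] at hv ⊢
      obtain ⟨b, hb, rfl⟩ := hv
      refine ⟨b, ?_, rfl⟩
      obtain ⟨t, rfl⟩ := h
      rw [List.getElem?_append_left]
      · exact hb
      · exact (List.getElem?_eq_some_iff.1 hb).1
    · intro X x v
      simp only [Part.mem_some_iff]
      constructor
      · rintro rfl
        refine ⟨x + 1, ?_⟩
        classical
        rw [pre_getElem? X (Nat.lt_succ_self x)]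
        by_cases h : x ∈ X <;> simp [h]
      · rintro ⟨n, hn⟩
        simp only [Option.map_eq_some_iff] at hn
        obtain ⟨b, hb, rfl⟩ := hn
        have hlt : x < n := by
          have := (List.getElem?_eq_some_iff.1 hb).1
          simpa using this
        classical
        rw [pre_getElem? X hlt] at hb
        by_cases h : x ∈ X
        · simp [h] at hb ⊢; subst hb; rfl
        · simp [h] at hb ⊢; subst hb; rfl
  | @pair F G hF hG ihF ihG =>
    obtain ⟨u, hu⟩ := ihF
    obtain ⟨w, hw⟩ := ihG
    refine ⟨fun σ x => (u σ x).bind fun a => (w σ x).map fun b => Nat.pair a b, ⟨?_, ?_, ?_⟩⟩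
    · refine Computable.option_bind hu.comp ?_
      refine Computable.option_map (hw.comp.comp (Computable.fst.comp Computable.fst)
        (Computable.snd.comp Computable.fst)) ?_
      exact (Primrec₂.natPair.to_comp.comp (Computable.snd.comp Computable.fst) Computable.snd).to₂
    · intro σ τ x v h hv
      simp only [Option.bind_eq_some_iff, Option.map_eq_some_iff] at hv ⊢
      obtain ⟨a, ha, b, hb, rfl⟩ := hv
      exact ⟨a, hu.mono h ha, b, hw.mono h hb, rfl⟩
    · intro X x v
      simp only [Option.bind_eq_some_iff, Option.map_eq_some_iff, Seq.seq, Part.mem_bind_iff,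
        Part.map_eq_map, Part.mem_map_iff]
      constructor
      · rintro ⟨f, ⟨a, ha, rfl⟩, b, hb, rfl⟩
        obtain ⟨n, hn⟩ := hu.spec.1 ha
        obtain ⟨m, hm⟩ := hw.spec.1 hb
        exact ⟨max n m, a, hu.mono (pre_prefix X (le_max_left _ _)) hn, b,
          hw.mono (pre_prefix X (le_max_right _ _)) hm, rfl⟩
      · rintro ⟨n, a, ha, b, hb, rfl⟩
        exact ⟨_, ⟨a, hu.spec.2 ⟨n, ha⟩, rfl⟩, b, hw.spec.2 ⟨n, hb⟩, rfl⟩
  | @comp F G hF hG ihF ihG =>
    obtain ⟨u, hu⟩ := ihF
    obtain ⟨w, hw⟩ := ihG
    refine ⟨fun σ x => (w σ x).bind fun a => u σ a, ⟨?_, ?_, ?_⟩⟩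
    · refine Computable.option_bind hw.comp ?_
      exact (hu.comp.comp (Computable.fst.comp Computable.fst) Computable.snd).to₂
    · intro σ τ x v h hv
      simp only [Option.bind_eq_some_iff] at hv ⊢
      obtain ⟨a, ha, hb⟩ := hv
      exact ⟨a, hw.mono h ha, hu.mono h hb⟩
    · intro X x v
      change v ∈ (G X x).bind (F X) ↔ _
      simp only [Option.bind_eq_some_iff, Part.mem_bind_iff]
      constructor
      · rintro ⟨a, ha, hb⟩
        obtain ⟨n, hn⟩ := hw.spec.1 ha
        obtain ⟨m, hm⟩ := hu.spec.1 hb
        exact ⟨max n m, a, hw.mono (pre_prefix X (le_max_left _ _)) hn,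
          hu.mono (pre_prefix X (le_max_right _ _)) hm⟩
      · rintro ⟨n, a, ha, hb⟩
        exact ⟨a, hw.spec.2 ⟨n, ha⟩, hu.spec.2 ⟨n, hb⟩⟩
  | @prec F G hF hG ihF ihG =>
    obtain ⟨u, hu⟩ := ihF
    obtain ⟨w, hw⟩ := ihG
    have key : ∀ (a n : ℕ) (σ τ : List Bool) (v : ℕ), σ <+: τ →
        (Nat.rec (u σ a) (fun y IH => IH.bind fun i =>
          w σ (Nat.pair a (Nat.pair y i))) n : Option ℕ) = some v →
        (Nat.rec (u τ a) (fun y IH => IH.bind fun i =>
          w τ (Nat.pair a (Nat.pair y i))) n : Option ℕ) = some v := by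
      intro a n σ τ v h
      induction n generalizing v with
      | zero => exact fun hv => hu.mono h hv
      | succ n ih =>
        intro hv
        simp only [Option.bind_eq_some_iff] at hv ⊢
        obtain ⟨i, hi, hv⟩ := hv
        exact ⟨i, ih _ hi, hw.mono h hv⟩
    refine ⟨fun σ p => Nat.rec (u σ p.unpair.1) (fun y IH => IH.bind fun i =>
      w σ (Nat.pair p.unpair.1 (Nat.pair y i))) p.unpair.2, ⟨?_, ?_, ?_⟩⟩
    · refine Computable.nat_rec (f := fun q : List Bool × ℕ => q.2.unpair.2)
        (g := fun q => u q.1 q.2.unpair.1)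
        (h := fun q r => r.2.bind fun i => w q.1 (Nat.pair q.2.unpair.1 (Nat.pair r.1 i))) ?_ ?_ ?_
      · exact Computable.snd.comp (Computable.unpair.comp Computable.snd)
      · exact hu.comp.comp Computable.fst
          (Computable.fst.comp (Computable.unpair.comp Computable.snd))
      · refine Computable.option_bind (Computable.snd.comp Computable.snd) ?_
        refine Computable₂.comp hw.comp
          (Computable.fst.comp (Computable.fst.comp Computable.fst)) ?_
        refine Primrec₂.natPair.to_comp.comp ?_ ?_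
        · exact Computable.fst.comp (Computable.unpair.comp
            (Computable.snd.comp (Computable.fst.comp Computable.fst)))
        · refine Primrec₂.natPair.to_comp.comp ?_ Computable.snd
          exact Computable.fst.comp (Computable.snd.comp Computable.fst)
    · intro σ τ p v h hv
      exact key _ _ _ _ _ h hv
    · intro X p v
      dsimp only
      generalize p.unpair.1 = a
      generalize p.unpair.2 = n
      induction n generalizing v with
      | zero => exact hu.spec
      | succ n ih =>
        simp only [Option.bind_eq_some_iff, Part.bind_eq_bind, Part.mem_bind_iff]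
        constructor
        · rintro ⟨i, hi, hv⟩
          obtain ⟨m, hm⟩ := ih.1 hi
          obtain ⟨k, hk⟩ := hw.spec.1 hv
          refine ⟨max m k, i, ?_, hw.mono (pre_prefix X (le_max_right _ _)) hk⟩
          exact key _ _ _ _ _ (pre_prefix X (le_max_left _ _)) hm
        · rintro ⟨m, i, hi, hv⟩
          exact ⟨i, ih.2 ⟨m, hi⟩, hw.spec.2 ⟨m, hv⟩⟩
  | @rfind F hF ih =>
    obtain ⟨u, hu⟩ := ih
    refine ⟨fun σ a => (bfs (fun n => rstep (u σ (Nat.pair a n)) n) σ.length).join, ⟨?_, ?_, ?_⟩⟩
    · have h : Computable fun p : List Bool × ℕ =>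
          bfs (fun n => rstep (u p.1 (Nat.pair p.2 n)) n) p.1.length := by
        refine bfs_comp (f := fun (p : List Bool × ℕ) n => rstep (u p.1 (Nat.pair p.2 n)) n) ?_
          (Computable.list_length.comp Computable.fst)
        refine rstep_comp.comp ?_ Computable.snd
        refine hu.comp.comp (Computable.fst.comp Computable.fst) ?_
        exact Primrec₂.natPair.to_comp.comp (Computable.snd.comp Computable.fst) Computable.snd
      have h2 := Computable.option_bind (f := fun p : List Bool × ℕ =>
          bfs (fun n => rstep (u p.1 (Nat.pair p.2 n)) n) p.1.length)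
          (g := fun _ o => (o : Option ℕ)) h Computable.snd.to₂
      refine h2.of_eq fun p => ?_
      dsimp only
      cases bfs (fun n => rstep (u p.1 (Nat.pair p.2 n)) n) p.1.length <;> rfl
    · intro σ τ a v h hv
      rw [bfs_rstep] at hv ⊢
      obtain ⟨h1, h2, h3⟩ := hv
      refine ⟨lt_of_lt_of_le h1 h.length_le, hu.mono h h2, fun k hk => ?_⟩
      obtain ⟨w, hw⟩ := h3 k hk
      exact ⟨w, hu.mono h hw⟩
    · intro X a v
      simp only [bfs_rstep, Nat.mem_rfind, Part.map_eq_map, Part.mem_map_iff, pre_length,
        decide_eq_true_eq, decide_eq_false_iff_not]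
      constructor
      · rintro ⟨⟨z, hz, hz0⟩, h2⟩
        subst hz0
        obtain ⟨n, hn⟩ := hu.spec.1 hz
        have h3 : ∀ k, k < v → ∃ n w, u (pre X n) (Nat.pair a k) = some (w + 1) := by
          intro k hk
          obtain ⟨z, hz, hz0⟩ := h2 hk
          obtain ⟨n, hn⟩ := hu.spec.1 hz
          obtain ⟨w, rfl⟩ := Nat.exists_eq_succ_of_ne_zero hz0
          exact ⟨n, w, hn⟩
        choose! N W hNW using h3
        refine ⟨max n (max (v + 1) ((Finset.range v).sup N)), ?_, ?_, ?_⟩
        · exact lt_of_lt_of_le (Nat.lt_succ_self v) ((le_max_left _ _).trans (le_max_right _ _))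
        · exact hu.mono (pre_prefix X (le_max_left _ _)) hn
        · intro k hk
          refine ⟨W k, hu.mono (pre_prefix X ?_) (hNW k hk)⟩
          refine le_trans ?_ ((le_max_right _ _).trans (le_max_right _ _))
          exact Finset.le_sup (f := N) (Finset.mem_range.2 hk)
      · rintro ⟨n, h1, h2, h3⟩
        refine ⟨⟨0, hu.spec.2 ⟨n, h2⟩, rfl⟩, fun {k} hk => ?_⟩
        obtain ⟨w, hw⟩ := h3 k hk
        exact ⟨w + 1, hu.spec.2 ⟨n, hw⟩, by simp⟩

end Pool.Agent.H84.Blum
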