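import Mathlib

/-!
# Oracle partial recursive functionals and relative Blum measures

Definitions used for problem `MP_f7ced4_lc`.
-/

namespace Pool.Agent.H84.Blum

open Classical in
/-- The oracle partial recursive functionals `F : X ↦ (x ↦ F X x)`, uniformly in the oracle
`X ⊆ ℕ`: the smallest class of functionals that contains the constant zero, the successor, the two
projections of the Cantor pairing and the characteristic function of the oracle, and that is closed
under pairing, composition, primitive recursion and unbounded search.  (This is the uniform version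
of Mathlib's `Nat.Partrec` and `Nat.RecursiveIn`.) -/
inductive OraclePartrec : (Set ℕ → ℕ →. ℕ) → Prop
  | zero : OraclePartrec fun _ _ => Part.some 0
  | succ : OraclePartrec fun _ n => Part.some (n + 1)
  | left : OraclePartrec fun _ n => Part.some n.unpair.1
  | right : OraclePartrec fun _ n => Part.some n.unpair.2
  | oracle : OraclePartrec fun X n => Part.some (if n ∈ X then 1 else 0)
  | pair {F G : Set ℕ → ℕ →. ℕ} (hF : OraclePartrec F) (hG : OraclePartrec G) :
      OraclePartrec fun X n => Nat.pair <$> F X n <*> G X n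
  | comp {F G : Set ℕ → ℕ →. ℕ} (hF : OraclePartrec F) (hG : OraclePartrec G) :
      OraclePartrec fun X n => G X n >>= F X
  | prec {F G : Set ℕ → ℕ →. ℕ} (hF : OraclePartrec F) (hG : OraclePartrec G) :
      OraclePartrec fun X p =>
        let (a, n) := Nat.unpair p
        n.rec (F X a) fun y IH => do
          let i ← IH
          G X (Nat.pair a (Nat.pair y i))
  | rfind {F : Set ℕ → ℕ →. ℕ} (hF : OraclePartrec F) :
      OraclePartrec fun X a =>
        Nat.rfind fun n => (fun m => m = 0) <$> F X (Nat.pair a n)

open Classical in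
/-- The characteristic function `c_A` of a set `A` of natural numbers. -/
noncomputable def charFn (A : Set ℕ) (x : ℕ) : ℕ := if x ∈ A then 1 else 0

open Classical in
/-- A relative Blum measure `(φ, Φ)`.  `phi i X x` is `φ_i^X(x)` and `cost i X x` is `Φ_i^X(x)`. -/
structure RelBlumMeasure where
  /-- `phi i X` is the `i`-th function partial recursive in the oracle `X` -/
  phi : ℕ → Set ℕ → ℕ →. ℕ
  /-- `cost i X` is the cost function of the `i`-th program with the oracle `X` -/
  cost : ℕ → Set ℕ → ℕ →. ℕ
  /-- there is a universal functional for the numbering `phi` -/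
  phi_univ : OraclePartrec fun X p => phi p.unpair.1 X p.unpair.2
  /-- the s-m-n property: the numbering `phi` is acceptable, uniformly in the oracle -/
  phi_smn : ∀ F : Set ℕ → ℕ →. ℕ, OraclePartrec F →
    ∃ S : ℕ → ℕ, Computable S ∧ ∀ p X x, phi (S p) X x = F X (Nat.pair p x)
  /-- the cost functions are oracle partial recursive functionals -/
  cost_partrec : ∀ i, OraclePartrec (cost i)
  /-- `φ_i^X(x)` is defined if and only if `Φ_i^X(x)` is defined -/
  dom_iff : ∀ i X x, (phi i X x).Dom ↔ (cost i X x).Dom
  /-- the predicate `Φ_i^X(x) = y` is decidable relative to `X`, uniformly in `i, x, y` -/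
  cost_dec : OraclePartrec fun X p =>
    Part.some (if p.unpair.2.unpair.2 ∈ cost p.unpair.1 X p.unpair.2.unpair.1 then 1 else 0)

namespace RelBlumMeasure

/-- `M.Computes i X A` means `φ_i^X = c_A`. -/
def Computes (M : RelBlumMeasure) (i : ℕ) (X A : Set ℕ) : Prop :=
  ∀ x, charFn A x ∈ M.phi i X x

/-- `Φ^X-Comp(A) >_io t`: for every `i` with `φ_i^X = c_A`, one has `Φ_i^X(x) > t(x)` for
infinitely many `x`. -/
def CompIo (M : RelBlumMeasure) (X A : Set ℕ) (t : ℕ → ℕ) : Prop :=
  ∀ i, M.Computes i X A → ∀ n, ∃ x ≥ n, ∃ y ∈ M.cost i X x, t x < y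

/-- `Φ^X-Comp(A) >_ae t`: for every `i` with `φ_i^X = c_A`, one has `Φ_i^X(x) > t(x)` for
all but finitely many `x`. -/
def CompAe (M : RelBlumMeasure) (X A : Set ℕ) (t : ℕ → ℕ) : Prop :=
  ∀ i, M.Computes i X A → ∃ n, ∀ x ≥ n, ∃ y ∈ M.cost i X x, t x < y

end RelBlumMeasure

end Pool.Agent.H84.Blum
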