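import Pool.Agent.H84.BlumWant

/-!
# The level function, by the recursion theorem
-/

namespace Pool.Agent.H84.Blum

open Encodable
open Nat.Partrec (Code)

/-- partial sums of a partial function -/
def psum (f : ℕ →. ℕ) (n : ℕ) : Part ℕ :=
  n.rec (Part.some 0) fun y IH => IH.bind fun a => (f y).map fun b => a + b

theorem psum_succ (f : ℕ →. ℕ) (n : ℕ) :
    psum f (n + 1) = (psum f n).bind fun a => (f n).map fun b => a + b := rfl

theorem psum_partrec {α : Type*} [Primcodable α] {f : α → ℕ →. ℕ} (hf : Partrec₂ f)
    {n : α → ℕ} (hn : Computable n) : Partrec fun a => psum (f a) (n a) := by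
  have h1 : Partrec fun q : α × ℕ × ℕ => (f q.1 q.2.1).map fun b => q.2.2 + b := by
    refine Partrec.map (f := fun q : α × ℕ × ℕ => f q.1 q.2.1) (g := fun q b => q.2.2 + b) ?_ ?_
    · exact hf.comp Computable.fst (Computable.fst.comp Computable.snd)
    · exact (Primrec.nat_add.to_comp.comp
        (Computable.snd.comp (Computable.snd.comp Computable.fst)) Computable.snd).to₂
  have h2 := Partrec.nat_rec (f := n) (g := fun _ : α => (Part.some 0 : Part ℕ))
    (h := fun a q => (f a q.1).map fun b => q.2 + b) hn (Computable.const 0).partrec h1.to₂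
  exact h2

theorem psum_dom {f : ℕ →. ℕ} {n : ℕ} (h : ∀ m < n, (f m).Dom) : (psum f n).Dom := by
  induction n with
  | zero => trivial
  | succ n ih =>
    rw [psum_succ]
    exact ⟨ih fun m hm => h m (by omega), h n (by omega)⟩

theorem psum_le {f : ℕ →. ℕ} {n v : ℕ} (h : v ∈ psum f n) {m b : ℕ} (hm : m < n)
    (hb : b ∈ f m) : b ≤ v := by
  induction n generalizing v with
  | zero => omega
  | succ n ih =>
    rw [psum_succ] at h
    simp only [Part.mem_bind_iff, Part.mem_map_iff] at h
    obtain ⟨a, ha, b', hb', rfl⟩ := h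
    rcases Nat.lt_succ_iff_lt_or_eq.1 hm with h | rfl
    · exact (ih ha h).trans (Nat.le_add_right _ _)
    · rw [Part.mem_unique hb hb']
      exact Nat.le_add_left _ _

theorem psum_mono {f : ℕ →. ℕ} {n m v w : ℕ} (hnm : n ≤ m) (h : v ∈ psum f n)
    (h' : w ∈ psum f m) : v ≤ w := by
  induction m, hnm using Nat.le_induction generalizing w with
  | base => rw [Part.mem_unique h h']
  | succ m hm ih =>
    rw [psum_succ] at h'
    simp only [Part.mem_bind_iff, Part.mem_map_iff] at h'
    obtain ⟨a, ha, b', hb', rfl⟩ := h'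
    exact (ih ha).trans (Nat.le_add_right _ _)

/-- the list of the first `n` values of the function coded by `c` -/
def lamList (c : Code) (n : ℕ) : Part (List ℕ) :=
  n.rec (Part.some []) fun y IH => IH.bind fun l => (c.eval y).map fun b => l ++ [b]

theorem lamList_succ (c : Code) (n : ℕ) :
    lamList c (n + 1) = (lamList c n).bind fun a => (c.eval n).map fun b => a ++ [b] := rfl

theorem lamList_partrec : Partrec₂ lamList := by
  have h1 : Partrec fun q : (Code × ℕ) × ℕ × List ℕ =>
      (q.1.1.eval q.2.1).map fun b => q.2.2 ++ [b] := by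
    refine Partrec.map (f := fun q : (Code × ℕ) × ℕ × List ℕ => q.1.1.eval q.2.1)
      (g := fun q b => q.2.2 ++ [b]) ?_ ?_
    · exact Code.eval_part.comp (Computable.fst.comp Computable.fst)
        (Computable.fst.comp Computable.snd)
    · exact (Primrec.list_concat.to_comp.comp
        (Computable.snd.comp (Computable.snd.comp Computable.fst)) Computable.snd).to₂
  have h2 := Partrec.nat_rec (f := fun q : Code × ℕ => q.2)
    (g := fun _ : Code × ℕ => (Part.some [] : Part (List ℕ)))
    (h := fun a q => (a.1.eval q.1).map fun b => q.2 ++ [b])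
    Computable.snd (Computable.const []).partrec h1.to₂
  exact h2

theorem lamList_dom {c : Code} {n : ℕ} (h : ∀ m < n, (c.eval m).Dom) : (lamList c n).Dom := by
  induction n with
  | zero => trivial
  | succ n ih =>
    rw [lamList_succ]
    exact ⟨ih fun m hm => h m (by omega), h n (by omega)⟩

theorem lamList_mem {c : Code} {L : ℕ → ℕ} (h : ∀ m, L m ∈ c.eval m) (n : ℕ) :
    (List.range n).map L ∈ lamList c n := by
  induction n with
  | zero => simp [lamList]
  | succ n ih =>
    rw [lamList_succ]
    simp only [Part.mem_bind_iff, Part.mem_map_iff]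
    exact ⟨_, ih, L n, h n, by simp [List.range_succ]⟩

section

variable (want : ℕ → List Bool → ℕ → Option Bool)

/-- the `n`-th bit produced by the construction -/
def bit (L : ℕ → ℕ) (k : ℕ) (τ : List Bool) (n : ℕ) : ℕ :=
  (((build want L k τ (n + 1))[n]?).getD false).toNat

variable {want}

theorem nextBit_comp (hw : Computable fun r : ℕ × List Bool × ℕ => want r.1 r.2.1 r.2.2) :
    Computable fun r : (List ℕ × ℕ) × List Bool =>
      nextBit want (fun m => r.1.1.getD m 0) r.1.2 r.2 := by
  have hk : Computable fun s : ((List ℕ × ℕ) × List Bool) × ℕ => s.1.1.2 + s.2 :=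
    Primrec.nat_add.to_comp.comp
      (Computable.snd.comp (Computable.fst.comp Computable.fst)) Computable.snd
  have hb : Computable fun s : ((List ℕ × ℕ) × List Bool) × ℕ => s.1.2 :=
    Computable.snd.comp Computable.fst
  have hl : Computable fun s : ((List ℕ × ℕ) × List Bool) × ℕ => s.1.2.length - (s.1.1.2 + s.2) :=
    Primrec.nat_sub.to_comp.comp (Computable.list_length.comp hb) hk
  have hg : Computable fun s : ((List ℕ × ℕ) × List Bool) × ℕ =>
      s.1.1.1.getD (s.1.2.length - (s.1.1.2 + s.2)) 0 :=
    (Primrec.list_getD 0).to_comp.comp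
      (Computable.fst.comp (Computable.fst.comp Computable.fst)) hl
  have h1 := hw.comp (hk.pair (hb.pair hg))
  have h2 : Computable fun r : (List ℕ × ℕ) × List Bool => r.2.length + 1 - r.1.2 :=
    Primrec.nat_sub.to_comp.comp (Computable.succ.comp (Computable.list_length.comp
      Computable.snd)) (Computable.snd.comp Computable.fst)
  have h3 := bfs_comp h1.to₂ h2
  have h4 := Computable.option_getD h3 (Computable.const false)
  exact h4

theorem build_comp (hw : Computable fun r : ℕ × List Bool × ℕ => want r.1 r.2.1 r.2.2) :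
    Computable fun r : (List ℕ × ℕ × List Bool) × ℕ =>
      build want (fun m => r.1.1.getD m 0) r.1.2.1 r.1.2.2 r.2 := by
  have h1 : Computable fun s : ((List ℕ × ℕ × List Bool) × ℕ) × (ℕ × List Bool) =>
      s.1.1.2.2[s.2.1]? :=
    Computable.list_getElem?.comp (Computable.snd.comp (Computable.snd.comp
      (Computable.fst.comp Computable.fst))) (Computable.fst.comp Computable.snd)
  have h2 : Computable fun s : ((List ℕ × ℕ × List Bool) × ℕ) × (ℕ × List Bool) =>
      (((s.1.1.1, s.1.1.2.1), s.2.2) : (List ℕ × ℕ) × List Bool) :=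
    ((Computable.fst.comp (Computable.fst.comp Computable.fst)).pair
      (Computable.fst.comp (Computable.snd.comp (Computable.fst.comp Computable.fst)))).pair
      (Computable.snd.comp Computable.snd)
  have h3 := (nextBit_comp hw).comp h2
  have h4 := Computable.option_getD h1 h3
  have h5 := Primrec.list_concat.to_comp.comp (Computable.snd.comp
    (Computable.snd (α := (List ℕ × ℕ × List Bool) × ℕ) (β := ℕ × List Bool))) h4
  have h6 := Computable.nat_rec (f := fun r : (List ℕ × ℕ × List Bool) × ℕ => r.2)
    (g := fun _ => ([] : List Bool)) Computable.snd (Computable.const []) h5.to₂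
  refine h6.of_eq fun r => ?_
  obtain ⟨⟨Λ, k, τ⟩, n⟩ := r
  simp only
  induction n with
  | zero => rfl
  | succ n ih =>
    simp only [build]
    rw [← ih]

theorem bit_comp (hw : Computable fun r : ℕ × List Bool × ℕ => want r.1 r.2.1 r.2.2) :
    Computable fun r : (List ℕ × ℕ × List Bool) × ℕ =>
      bit want (fun m => r.1.1.getD m 0) r.1.2.1 r.1.2.2 r.2 := by
  have h1 : Computable fun r : (List ℕ × ℕ × List Bool) × ℕ => (r.1, r.2 + 1) :=
    Computable.fst.pair (Computable.succ.comp Computable.snd)
  have h2 := (build_comp hw).comp h1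
  have h3 := Computable.list_getElem?.comp h2
    (Computable.snd (α := List ℕ × ℕ × List Bool) (β := ℕ))
  have h4 := boolToNat_comp.comp (Computable.option_getD h3 (Computable.const false))
  exact h4

/-- the program of the construction -/
def psi (want : ℕ → List Bool → ℕ → Option Bool) (p : Code × ℕ × List Bool) (n : ℕ) : Part ℕ :=
  (lamList p.1 (n + 1 - p.2.1)).map fun Λ => bit want (fun m => Λ.getD m 0) p.2.1 p.2.2 n

theorem psi_partrec (hw : Computable fun r : ℕ × List Bool × ℕ => want r.1 r.2.1 r.2.2) :
    Partrec₂ (psi want) := by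
  have h1 : Computable fun r : (Code × ℕ × List Bool) × ℕ => r.2 + 1 - r.1.2.1 :=
    Primrec.nat_sub.to_comp.comp (Computable.succ.comp Computable.snd)
      (Computable.fst.comp (Computable.snd.comp Computable.fst))
  have h2 := lamList_partrec.comp (Computable.fst.comp
    (Computable.fst (α := Code × ℕ × List Bool) (β := ℕ))) h1
  have h3 : Computable fun s : ((Code × ℕ × List Bool) × ℕ) × List ℕ =>
      (((s.2, s.1.1.2.1, s.1.1.2.2), s.1.2) : (List ℕ × ℕ × List Bool) × ℕ) :=
    (Computable.snd.pair ((Computable.fst.comp (Computable.snd.comp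
      (Computable.fst.comp Computable.fst))).pair (Computable.snd.comp (Computable.snd.comp
      (Computable.fst.comp Computable.fst))))).pair (Computable.snd.comp Computable.fst)
  have h4 := (bit_comp hw).comp h3
  have h5 := Partrec.map h2 h4.to₂
  exact h5

theorem psi_mem {c : Code} {L : ℕ → ℕ} (h : ∀ m, L m ∈ c.eval m) (k : ℕ) (τ : List Bool)
    (n : ℕ) : bit want L k τ n ∈ psi want (c, k, τ) n := by
  unfold psi
  simp only [Part.mem_map_iff]
  refine ⟨_, lamList_mem h _, ?_⟩
  unfold bit
  have : build want (fun m => ((List.range (n + 1 - k)).map L).getD m 0) k τ (n + 1) =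
      build want L k τ (n + 1) := by
    have key : ∀ m, m + k < n + 1 → ((List.range (n + 1 - k)).map L).getD m 0 = L m := by
      intro m hm
      have : m < n + 1 - k := by omega
      simp [List.getD, this]
    exact build_congr want key fun m _ hm => key m hm
  rw [this]

theorem psi_dom {c : Code} {k : ℕ} {τ : List Bool} {n : ℕ}
    (h : ∀ m < n + 1 - k, (c.eval m).Dom) : (psi want (c, k, τ) n).Dom :=
  lamList_dom h

end

section

variable (M : RelBlumMeasure) (S : Code × ℕ × List Bool → ℕ) (s : ℕ → ℕ)

/-- decoding of the parameters -/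
def dec2 (w : ℕ) : ℕ × List Bool := (decode (α := ℕ × List Bool) w).getD (0, [])

theorem dec2_comp : Computable dec2 :=
  Computable.option_getD Computable.decode (Computable.const _)

theorem dec2_encode (p : ℕ × List Bool) : dec2 (encode p) = p := by
  unfold dec2; rw [encodek]; rfl

attribute [irreducible] dec2

/-- one term of the sum which defines the level function -/
def term (c : Code) (m w : ℕ) : Part ℕ :=
  (M.cost (S (c, (dec2 w).1 + 1, (dec2 w).2)) ∅ (m + (dec2 w).1)).map fun y =>
    y + (s (m + (dec2 w).1) + (m + (dec2 w).1))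

/-- one row of the sum which defines the level function -/
def row (c : Code) (m : ℕ) : Part ℕ := psum (term M S s c m) (m + 1)

/-- the equation satisfied by the level function -/
def stepLam (c : Code) (m : ℕ) : Part ℕ := psum (row M S s c) (m + 1)

variable {S s}

theorem empty_comp : ComputablePred fun n : ℕ => n ∈ (∅ : Set ℕ) := by
  refine ⟨fun _ => Decidable.isFalse (by simp), ?_⟩
  exact (Computable.const false).of_eq fun n => by simp

theorem stepLam_partrec (hS : Computable S) (hs : Computable s) :
    Partrec₂ (stepLam M S s) := by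
  have hd1 : Computable fun r : (Code × ℕ) × ℕ => (dec2 r.2).1 :=
    Computable.fst.comp (dec2_comp.comp Computable.snd)
  have hd2 : Computable fun r : (Code × ℕ) × ℕ => (dec2 r.2).2 :=
    Computable.snd.comp (dec2_comp.comp Computable.snd)
  have hm : Computable fun r : (Code × ℕ) × ℕ => r.1.2 + (dec2 r.2).1 :=
    Primrec.nat_add.to_comp.comp (Computable.snd.comp Computable.fst) hd1
  have hp : Computable fun r : (Code × ℕ) × ℕ => (r.1.1, (dec2 r.2).1 + 1, (dec2 r.2).2) :=
    (Computable.fst.comp Computable.fst).pair ((Computable.succ.comp hd1).pair hd2)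
  have h1 := (M.cost_partrec' empty_comp).comp ((hS.comp hp).pair hm)
  have h2 : Computable fun q : ((Code × ℕ) × ℕ) × ℕ =>
      q.2 + (s (q.1.1.2 + (dec2 q.1.2).1) + (q.1.1.2 + (dec2 q.1.2).1)) := by
    have h3 := hm.comp (Computable.fst (α := (Code × ℕ) × ℕ) (β := ℕ))
    exact Primrec.nat_add.to_comp.comp Computable.snd
      (Primrec.nat_add.to_comp.comp (hs.comp h3) h3)
  have h3 := Partrec.map h1 h2.to₂
  have h4 : Partrec₂ fun (r : Code × ℕ) w => term M S s r.1 r.2 w := h3
  have h5 : Partrec₂ fun (c : Code) (m : ℕ) => row M S s c m :=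
    psum_partrec h4 (Computable.succ.comp Computable.snd)
  have h6 : Partrec₂ fun (r : Code × ℕ) m => row M S s r.1 m :=
    h5.comp (Computable.fst.comp Computable.fst) Computable.snd
  exact psum_partrec h6 (Computable.succ.comp Computable.snd)

end

theorem exists_level (M : RelBlumMeasure) {want : ℕ → List Bool → ℕ → Option Bool}
    (hw : Computable fun r : ℕ × List Bool × ℕ => want r.1 r.2.1 r.2.2) {s : ℕ → ℕ}
    (hs : Computable s) :
    ∃ L : ℕ → ℕ, Monotone L ∧ ∀ k τ, ∃ j, (∀ X n, bit want L (k + 1) τ n ∈ M.phi j X n) ∧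
      ∃ N, ∀ n ≥ N, (∀ y ∈ M.cost j ∅ n, y ≤ L (n - k)) ∧ s n ≤ L (n - k) ∧ n ≤ L (n - k) := by
  obtain ⟨S, hS, hS2⟩ := M.smn (psi_partrec hw)
  obtain ⟨c, hc⟩ := Code.fixed_point₂ (stepLam_partrec M hS hs)
  have hdom : ∀ m, (c.eval m).Dom := by
    intro m
    induction m using Nat.strong_induction_on with
    | _ m ih =>
      rw [hc]
      refine psum_dom fun m' hm' => psum_dom fun w hw' => ?_
      change (M.cost _ ∅ _).Dom
      rw [← M.dom_iff, hS2]
      refine psi_dom fun j hj => ih j ?_
      omega
  let L : ℕ → ℕ := fun m => (c.eval m).get (hdom m)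
  have hL : ∀ m, L m ∈ c.eval m := fun m => Part.get_mem _
  have hL2 : ∀ m, L m ∈ psum (row M S s c) (m + 1) := by
    intro m
    have := hL m
    rw [hc] at this
    exact this
  refine ⟨L, ?_, ?_⟩
  · intro m m' h
    exact psum_mono (by omega) (hL2 m) (hL2 m')
  · intro k τ
    refine ⟨S (c, k + 1, τ), ?_, ?_⟩
    · intro X n
      rw [hS2]
      exact psi_mem hL _ _ _
    · refine ⟨k + encode (k, τ), fun n hn => ?_⟩
      have hterm : ∀ y ∈ M.cost (S (c, k + 1, τ)) ∅ n, y + (s n + n) ≤ L (n - k) := by
        intro y hy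
        obtain ⟨r, hr⟩ : ∃ r, r ∈ row M S s c (n - k) := by
          rw [← Part.dom_iff_mem]
          refine psum_dom fun w hw' => ?_
          change (M.cost _ ∅ _).Dom
          rw [← M.dom_iff, hS2]
          exact psi_dom fun j _ => hdom j
        have h1 : r ≤ L (n - k) := psum_le (hL2 (n - k)) (Nat.lt_succ_self _) hr
        refine le_trans ?_ h1
        refine psum_le (m := encode (k, τ)) hr (by omega) ?_
        unfold term
        rw [dec2_encode]
        simp only [Part.mem_map_iff]
        have hnk : n - k + k = n := by omega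
        rw [hnk]
        exact ⟨y, hy, rfl⟩
      have hex : ∃ y, y ∈ M.cost (S (c, k + 1, τ)) ∅ n := by
        rw [← Part.dom_iff_mem, ← M.dom_iff, hS2]
        exact psi_dom fun j _ => hdom j
      obtain ⟨y, hy⟩ := hex
      refine ⟨fun z hz => ?_, ?_, ?_⟩
      · have := hterm z hz
        omega
      · have := hterm y hy
        omega
      · have := hterm y hy
        omega

end Pool.Agent.H84.Blum
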