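import Pool.Agent.H84.BlumSearch

/-!
# The main construction
-/

namespace Pool.Agent.H84.Blum

open Encodable

theorem computablePred_of_computes (M : RelBlumMeasure) {j : ℕ} {B : Set ℕ}
    (hj : M.Computes j ∅ B) : ComputablePred fun n => n ∈ B := by
  classical
  have h1 : Partrec fun n : ℕ => M.phi j ∅ n :=
    (M.phi_partrec empty_comp).comp ((Computable.const j).pair Computable.id)
  have h2 : Computable (charFn B) := h1.of_eq_tot hj
  refine ⟨fun n => inferInstance, ?_⟩
  have h3 := beqNat_comp h2 (Computable.const 1)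
  refine h3.of_eq fun n => ?_
  unfold charFn
  by_cases h : n ∈ B <;> simp [h]

theorem charFn_comp {A : Set ℕ} (hA : ComputablePred fun n => n ∈ A) : Computable (charFn A) := by
  classical
  obtain ⟨_, h⟩ := hA
  have : Computable fun n => (cond (decide (n ∈ A)) 1 0 : ℕ) :=
    Computable.cond h (Computable.const _) (Computable.const _)
  refine this.of_eq fun n => ?_
  unfold charFn
  by_cases hn : n ∈ A <;> simp [hn]

/-- the list of requirements: `e = ⟨i, 0⟩` makes the program `i` wrong about `A` with the oracle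
`B`; `e = ⟨i, 1⟩` and `e = ⟨i, m + 2⟩` diagonalise against cheap computations of `B` by the
program `i` with the oracle `A` and with the empty oracle -/
noncomputable def want (M : RelBlumMeasure) (u : List Bool → ℕ → Option ℕ) (A : Set ℕ)
    (e : ℕ) (β : List Bool) (ℓ : ℕ) : Option Bool :=
  cond (e.unpair.2 == 0) (wantR u (charFn A) e.unpair.1 β ℓ)
    (cond (e.unpair.2 == 1) (wantD (M.Q A) e.unpair.1 β ℓ) (wantD (M.Q ∅) e.unpair.1 β ℓ))

theorem want_comp (M : RelBlumMeasure) {u : List Bool → ℕ → Option ℕ} (hu : Computable₂ u)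
    {A : Set ℕ} (hA : ComputablePred fun n => n ∈ A) :
    Computable fun r : ℕ × List Bool × ℕ => want M u A r.1 r.2.1 r.2.2 := by
  have h0 : Computable fun r : ℕ × List Bool × ℕ => (r.1.unpair.1, r.2.1, r.2.2) :=
    (Computable.fst.comp (Computable.unpair.comp Computable.fst)).pair
      ((Computable.fst.comp Computable.snd).pair (Computable.snd.comp Computable.snd))
  have h1 := (wantR_comp hu (charFn_comp hA)).comp h0
  have h2 := (wantD_comp (M.Q_comp hA)).comp h0
  have h3 := (wantD_comp (M.Q_comp empty_comp)).comp h0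
  have h4 : Computable fun r : ℕ × List Bool × ℕ => r.1.unpair.2 :=
    Computable.snd.comp (Computable.unpair.comp Computable.fst)
  have h5 := Computable.cond (beqNat_comp h4 (Computable.const 0)) h1
    (Computable.cond (beqNat_comp h4 (Computable.const 1)) h2 h3)
  exact h5

theorem want_fin (M : RelBlumMeasure) {u : List Bool → ℕ → Option ℕ} {A : Set ℕ} {L : ℕ → ℕ}
    (hL : Monotone L) (e : ℕ) (B : Set ℕ) (n0 : ℕ) (_ : e ≤ n0)
    (h : ∀ n ≥ n0, ∀ b, want M u A e (pre B n) (L (n - e)) = some b → (n ∈ B ↔ b = true)) :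
    ∃ n1, ∀ n ≥ n1, want M u A e (pre B n) (L (n - e)) = none := by
  have hL' : Monotone fun n => L (n - e) := fun a b hab => hL (by omega)
  unfold want at h ⊢
  rcases h0 : (e.unpair.2 == 0) with _ | _
  · rcases h1 : (e.unpair.2 == 1) with _ | _
    · simp only [h0, h1, cond_false] at h ⊢
      exact wantD_fin (q := M.Q ∅) (fun _ _ _ _ _ h1 h2 => M.Q_mono h1 h2) hL' h
    · simp only [h0, h1, cond_false, cond_true] at h ⊢
      exact wantD_fin (q := M.Q A) (fun _ _ _ _ _ h1 h2 => M.Q_mono h1 h2) hL' h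
  · simp only [h0, cond_true] at h ⊢
    exact wantR_fin hL' h

theorem bit_eq_charFn {want : ℕ → List Bool → ℕ → Option Bool} {L : ℕ → ℕ} {k : ℕ}
    {τ : List Bool} {B : Set ℕ} (h : ∀ n, build want L k τ n = pre B n) (n : ℕ) :
    bit want L k τ n = charFn B n := by
  classical
  unfold bit charFn
  rw [h, pre_getElem? _ (Nat.lt_succ_self n)]
  by_cases hn : n ∈ B <;> simp [hn]

theorem main (M : RelBlumMeasure) :
    ∃ g : ℕ → ℕ → ℕ, Computable₂ g ∧
      ∀ A : Set ℕ, (ComputablePred fun n => n ∈ A) → ∀ s : ℕ → ℕ, Computable s →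
        ∃ B : Set ℕ, (ComputablePred fun n => n ∈ B) ∧ M.CompAe ∅ B s ∧
          (∀ t : ℕ → ℕ, M.CompIo ∅ A (fun x => g x (t x)) → M.CompIo B A t) ∧
          (∀ t : ℕ → ℕ, M.CompIo ∅ B t → M.CompIo A B t) := by
  classical
  obtain ⟨u, hu⟩ := M.phi_univ.approx
  obtain ⟨g, hg, hg2⟩ := exists_g M hu
  refine ⟨g, hg, fun A hA s hs => ?_⟩
  have hw := want_comp M hu.comp hA
  obtain ⟨L, hLm, hL⟩ := exists_level M hw hs
  have hfin := want_fin M (u := u) (A := A) hLm
  set B := theSet (want M u A) L with hBdef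
  have hnone : ∀ e, ∃ n1, ∀ n ≥ n1, want M u A e (pre B n) (L (n - e)) = none :=
    finite_want hfin
  have htail : ∀ k, ∃ τ, ∀ n, build (want M u A) L k τ n = pre B n := exists_tail hfin
  -- a program for `B` which respects only the requirements `> e`
  have hprog : ∀ e, ∃ j, M.Computes j ∅ B ∧ ∃ N, ∀ n ≥ N,
      (∀ y ∈ M.cost j ∅ n, y ≤ L (n - e)) ∧ s n ≤ L (n - e) ∧ n ≤ L (n - e) := by
    intro e
    obtain ⟨τ, hτ⟩ := htail (e + 1)
    obtain ⟨j, hj, hN⟩ := hL e τ
    refine ⟨j, fun x => ?_, hN⟩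
    have := hj ∅ x
    rwa [bit_eq_charFn hτ] at this
  refine ⟨B, ?_, ?_, ?_, ?_⟩
  · obtain ⟨j, hj, _⟩ := hprog 0
    exact computablePred_of_computes M hj
  · -- `B` is complex
    intro i hi
    obtain ⟨n1, hn1⟩ := hnone (Nat.pair i 2)
    obtain ⟨_, _, N, hN⟩ := hprog (Nat.pair i 2)
    refine ⟨max n1 N, fun x hx => ?_⟩
    have h1 := hn1 x (by omega)
    unfold want at h1
    simp only [Nat.unpair_pair] at h1
    have h2 : M.Q ∅ i x (L (x - Nat.pair i 2)) = none := by
      refine wantD_none (q := M.Q ∅) h1 ?_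
      intro m v hv
      rw [M.Q_eq_some] at hv
      exact Part.mem_unique hv.2 (hi m)
    rw [M.Q_eq_none] at h2
    have hdom : (M.cost i ∅ x).Dom := (M.dom_iff i ∅ x).1 (Part.dom_iff_mem.2 ⟨_, hi x⟩)
    obtain ⟨y, hy⟩ := Part.dom_iff_mem.1 hdom
    exact ⟨y, hy, lt_of_le_of_lt (hN x (by omega)).2.1 (h2 y hy)⟩
  · -- `B` does not help `A`
    intro t ht i hi
    by_contra hcon
    push Not at hcon
    obtain ⟨n0, hn0⟩ := hcon
    set e := Nat.pair i 0 with he
    obtain ⟨n1, hn1⟩ := hnone e
    obtain ⟨j, hj, N, hN⟩ := hprog e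
    have hc : ∀ n, ∃ y, y ∈ M.cost j ∅ n := fun n =>
      Part.dom_iff_mem.1 ((M.dom_iff j ∅ n).1 (Part.dom_iff_mem.2 ⟨_, hj n⟩))
    choose c hc using hc
    set ns := max n1 N with hns
    set y1 := max ns ((Finset.range ns).sup c) with hy1
    obtain ⟨j', hj', N', hN'⟩ := hg2 j i y1
    -- no string makes the program `i` wrong
    have hns' : ∀ z σ, Bad u (charFn A) i z σ → ∀ n, ¬ σ <+: pre B n := by
      rintro z σ ⟨x, hd, v, hv, hne⟩ n hp
      have : v ∈ M.phi i B x := by
        have := hu.spec.2 ⟨n, hu.mono hp hv⟩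
        simpa using this
      exact hne (Part.mem_unique this (hi x))
    have hcorrect : ∀ x y v, max x y1 ≤ y → att M u j i x y = some v → v = charFn A x := by
      intro x y v hy hv
      obtain ⟨z, hz, σ, hd, hc', hu'⟩ := att_eq_some hv
      obtain ⟨m, hmy, hk, hk1, hk2⟩ := kn_spec (y := y) hj y
      rw [hk] at hc'
      by_contra hne
      have hbad : Bad u (charFn A) i z σ := ⟨x, hd, v, hu', hne⟩
      rcases hc' with hp | hp
      · exact hns' z σ hbad m hp
      · -- `m` is large
        have hm : ns ≤ m := by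
          by_contra hlt
          push Not at hlt
          have h1 : m < y := by omega
          have h2 := hk2 h1
          rw [M.Q_eq_none] at h2
          have h3 := h2 _ (hc m)
          have h4 : c m ≤ (Finset.range ns).sup c :=
            Finset.le_sup (f := c) (Finset.mem_range.2 hlt)
          omega
        have hzL : z < L (m - e) := by
          rcases Nat.lt_or_eq_of_le hmy with h1 | h1
          · have h2 := hk2 h1
            rw [M.Q_eq_none] at h2
            have h3 := h2 _ (hc m)
            have h4 := (hN m (by omega)).1 _ (hc m)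
            omega
          · have h4 := (hN m (by omega)).2.2
            omega
        have h1 := hn1 m (by omega)
        unfold want at h1
        simp only [he, Nat.unpair_pair, beq_self_eq_true, cond_true] at h1
        exact wantR_none h1 (fun z σ hb => hns' z σ hb m) hzL hbad hp
    -- the search program computes `A`
    have hdom : ∀ x, ∃ w, w ∈ psi2 M u (j, i, y1) x := by
      intro x
      rw [← Part.dom_iff_mem]
      unfold psi2
      rw [Nat.rfindOpt_dom]
      have hv : charFn A x ∈ M.phi (Nat.pair i x).unpair.1 B (Nat.pair i x).unpair.2 := by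
        simpa using hi x
      obtain ⟨m, hm⟩ := hu.spec.1 hv
      refine ⟨encode (pre B m, x) + 1, ?_⟩
      obtain ⟨m', _, hk, _⟩ := kn_spec (y := max x y1 + (encode (pre B m, x) + 1)) hj
        (max x y1 + (encode (pre B m, x) + 1))
      have h1 : (att M u j i x (max x y1 + (encode (pre B m, x) + 1))).isSome = true := by
        refine att_isSome (z := encode (pre B m, x)) (by omega) (dec_encode _) ?_ hm
        rw [hk]
        exact prefix_or_prefix (List.prefix_rfl)
      obtain ⟨v, hv⟩ := Option.isSome_iff_exists.1 h1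
      exact ⟨v, hv⟩
    have hj'A : M.Computes j' ∅ A := by
      intro x
      rw [hj']
      obtain ⟨w, hw'⟩ := hdom x
      have h1 := hw'
      unfold psi2 at h1
      obtain ⟨y, hy⟩ := Nat.rfindOpt_spec h1
      have h2 := hcorrect x _ w (Nat.le_add_right _ _) hy
      rw [← h2]
      exact hw'
    obtain ⟨x, hx, y, hy, hlt⟩ := ht j' hj'A (max N' n0)
    have hcd : (M.cost i B x).Dom := (M.dom_iff i B x).1 (Part.dom_iff_mem.2 ⟨_, hi x⟩)
    obtain ⟨t', ht'⟩ := Part.dom_iff_mem.1 hcd
    obtain ⟨y', hy', hle⟩ := hN' x (by omega) B (t x) t' hj ht' (hn0 x (by omega) t' ht')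
    have h1 : g x (t x) < y := hlt
    have h2 := Part.mem_unique hy hy'
    omega
  · -- `A` does not help `B`
    intro t ht i hi n0
    obtain ⟨n1, hn1⟩ := hnone (Nat.pair i 1)
    obtain ⟨j, hj, N, hN⟩ := hprog (Nat.pair i 1)
    obtain ⟨x, hx, y, hy, hlt⟩ := ht j hj (max n0 (max n1 N))
    have h1 := hn1 x (by omega)
    unfold want at h1
    simp only [Nat.unpair_pair] at h1
    have h2 : M.Q A i x (L (x - Nat.pair i 1)) = none := by
      refine wantD_none (q := M.Q A) h1 ?_
      intro m v hv
      rw [M.Q_eq_some] at hv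
      exact Part.mem_unique hv.2 (hi m)
    rw [M.Q_eq_none] at h2
    have hdom : (M.cost i A x).Dom := (M.dom_iff i A x).1 (Part.dom_iff_mem.2 ⟨_, hi x⟩)
    obtain ⟨y', hy'⟩ := Part.dom_iff_mem.1 hdom
    have h3 := h2 y' hy'
    have h4 := (hN x (by omega)).1 y hy
    exact ⟨x, by omega, y', hy', by omega⟩

end Pool.Agent.H84.Blum
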