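import Pool.Agent.H84.BlumSched

/-!
# Effective tools for a relative Blum measure
-/

namespace Pool.Agent.H84.Blum

namespace RelBlumMeasure

variable (M : RelBlumMeasure)

/-- general parametrised s-m-n property, for functions that ignore the oracle -/
theorem smn {α : Type*} [Primcodable α] {ψ : α → ℕ →. ℕ} (hψ : Partrec₂ ψ) :
    ∃ S : α → ℕ, Computable S ∧ ∀ a X x, M.phi (S a) X x = ψ a x := by
  have h1 : Partrec fun z : ℕ => Part.bind (Encodable.decode (α := α) z.unpair.1 : Part α)
      fun a => ψ a z.unpair.2 := by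
    refine Partrec.bind ?_ ?_
    · exact (Computable.decode.comp (Computable.fst.comp Computable.unpair)).ofOption
    · exact hψ.comp Computable.snd
        (Computable.snd.comp (Computable.unpair.comp Computable.fst))
  obtain ⟨S, hS, hS2⟩ := M.phi_smn _ (OraclePartrec.of_partrec (Partrec.nat_iff.1 h1))
  refine ⟨fun a => S (Encodable.encode a), hS.comp Computable.encode, fun a X x => ?_⟩
  rw [hS2]
  simp

/-- the costs with a computable oracle are decidable -/
theorem mem_cost_comp {X : Set ℕ} (hX : ComputablePred fun n => n ∈ X) :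
    ∃ f : ℕ × ℕ × ℕ → Bool, Computable f ∧ ∀ i x y, f (i, x, y) = true ↔ y ∈ M.cost i X x := by
  classical
  have h := Partrec.nat_iff.2 (M.cost_dec.partrec hX)
  have h1 : Computable fun p : ℕ =>
      (if p.unpair.2.unpair.2 ∈ M.cost p.unpair.1 X p.unpair.2.unpair.1 then 1 else 0 : ℕ) :=
    h.of_eq fun p => by simp
  have h2 : Computable fun q : ℕ × ℕ × ℕ => Nat.pair q.1 (Nat.pair q.2.1 q.2.2) :=
    Primrec₂.natPair.to_comp.comp Computable.fst
      (Primrec₂.natPair.to_comp.comp (Computable.fst.comp Computable.snd)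
        (Computable.snd.comp Computable.snd))
  have h3 := h1.comp h2
  refine ⟨fun q => (if q.2.2 ∈ M.cost q.1 X q.2.1 then 1 else 0 : ℕ) == 1, ?_, ?_⟩
  · refine Primrec.beq.to_comp.comp (h3.of_eq fun q => ?_) (Computable.const 1)
    simp
  · intro i x y
    by_cases hy : y ∈ M.cost i X x <;> simp [hy]

open Classical in
/-- `Q X i x ℓ` is the value `φ_i^X(x)` if the cost `Φ_i^X(x)` is at most `ℓ`, `none` otherwise -/
noncomputable def Q (X : Set ℕ) (i x ℓ : ℕ) : Option ℕ :=
  if h : ∃ y ≤ ℓ, y ∈ M.cost i X x then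
    some ((M.phi i X x).get ((M.dom_iff i X x).2 (by
      obtain ⟨y, _, hy⟩ := h
      exact Part.dom_iff_mem.2 ⟨y, hy⟩)))
  else none

theorem Q_eq_some {X : Set ℕ} {i x ℓ v : ℕ} :
    M.Q X i x ℓ = some v ↔ (∃ y ≤ ℓ, y ∈ M.cost i X x) ∧ v ∈ M.phi i X x := by
  unfold Q
  split_ifs with h
  · simp only [Option.some.injEq, h, true_and]
    constructor
    · rintro rfl
      exact Part.get_mem _
    · intro hv
      exact Part.get_eq_of_mem hv _
  · simp [h]

theorem Q_eq_none {X : Set ℕ} {i x ℓ : ℕ} :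
    M.Q X i x ℓ = none ↔ ∀ y ∈ M.cost i X x, ℓ < y := by
  unfold Q
  split_ifs with h
  · simp only [reduceCtorEq, false_iff]
    push Not
    obtain ⟨y, h1, h2⟩ := h
    exact ⟨y, h2, h1⟩
  · simp only [true_iff]
    push Not at h
    intro y hy
    by_contra hc
    exact h y (by omega) hy

theorem Q_mono {X : Set ℕ} {i x ℓ ℓ' v : ℕ} (h : ℓ ≤ ℓ') (hv : M.Q X i x ℓ = some v) :
    M.Q X i x ℓ' = some v := by
  rw [Q_eq_some] at hv ⊢
  obtain ⟨⟨y, h1, h2⟩, h3⟩ := hv
  exact ⟨⟨y, h1.trans h, h2⟩, h3⟩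

theorem phi_partrec {X : Set ℕ} (hX : ComputablePred fun n => n ∈ X) :
    Partrec fun q : ℕ × ℕ => M.phi q.1 X q.2 := by
  have h := Partrec.nat_iff.2 (M.phi_univ.partrec hX)
  refine (h.comp (Primrec₂.natPair.to_comp.comp Computable.fst Computable.snd)).of_eq fun q => ?_
  simp

theorem cost_partrec' {X : Set ℕ} (hX : ComputablePred fun n => n ∈ X) :
    Partrec fun q : ℕ × ℕ => M.cost q.1 X q.2 := by
  obtain ⟨f, hf, hf2⟩ := M.mem_cost_comp hX
  have h : Partrec fun q : ℕ × ℕ => Nat.rfind fun y => (Part.some (f (q.1, q.2, y)) : Part Bool) := by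
    refine Partrec.rfind (p := fun (q : ℕ × ℕ) y => (Part.some (f (q.1, q.2, y)) : Part Bool)) ?_
    have : Computable fun (r : (ℕ × ℕ) × ℕ) => f (r.1.1, r.1.2, r.2) := by
      refine hf.comp ?_
      exact (Computable.fst.comp Computable.fst).pair
        ((Computable.snd.comp Computable.fst).pair Computable.snd)
    exact this
  refine h.of_eq fun q => ?_
  ext y
  rw [Nat.mem_rfind]
  constructor
  · rintro ⟨h1, _⟩
    simp only [Part.mem_some_iff] at h1
    exact (hf2 _ _ _).1 h1.symm
  · intro hy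
    refine ⟨?_, ?_⟩
    · simp only [Part.mem_some_iff]
      exact ((hf2 _ _ _).2 hy).symm
    · intro m hm
      simp only [Part.mem_some_iff]
      by_contra hc
      have : f (q.1, q.2, m) = true := by
        cases hh : f (q.1, q.2, m)
        · exact absurd hh.symm hc
        · rfl
      have := Part.mem_unique ((hf2 _ _ _).1 this) hy
      omega

theorem Q_comp {X : Set ℕ} (hX : ComputablePred fun n => n ∈ X) :
    Computable fun q : ℕ × ℕ × ℕ => M.Q X q.1 q.2.1 q.2.2 := by
  obtain ⟨f, hf, hf2⟩ := M.mem_cost_comp hX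
  have h1 : Computable fun q : ℕ × ℕ × ℕ =>
      (bfs (fun y => cond (f (q.1, q.2.1, y)) (some ()) none) (q.2.2 + 1)).isSome := by
    refine Primrec.option_isSome.to_comp.comp ?_
    refine bfs_comp (f := fun (q : ℕ × ℕ × ℕ) y => cond (f (q.1, q.2.1, y)) (some ()) none) ?_ ?_
    · refine Computable.cond ?_ (Computable.const _) (Computable.const _)
      refine hf.comp ?_
      exact (Computable.fst.comp Computable.fst).pair
        ((Computable.fst.comp (Computable.snd.comp Computable.fst)).pair Computable.snd)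
    · exact Computable.succ.comp (Computable.snd.comp Computable.snd)
  have h2 : Partrec fun q : ℕ × ℕ × ℕ => (M.phi q.1 X q.2.1).map some := by
    refine Partrec.map ?_ ?_
    · exact (M.phi_partrec hX).comp (Computable.fst.pair (Computable.fst.comp Computable.snd))
    · exact Computable.option_some.comp Computable.snd
  have h3 := Partrec.cond h1 h2 (Computable.const (none : Option ℕ)).partrec
  refine h3.of_eq_tot fun q => ?_
  have key : (bfs (fun y => cond (f (q.1, q.2.1, y)) (some ()) none) (q.2.2 + 1)).isSome = true ↔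
      ∃ y ≤ q.2.2, y ∈ M.cost q.1 X q.2.1 := by
    rw [bfs_isSome]
    constructor
    · rintro ⟨y, hy, h⟩
      refine ⟨y, by omega, (hf2 _ _ _).1 ?_⟩
      cases hh : f (q.1, q.2.1, y)
      · rw [hh] at h; simp at h
      · rfl
    · rintro ⟨y, hy, h⟩
      refine ⟨y, by omega, ?_⟩
      rw [(hf2 _ _ _).2 h]
      rfl
  rcases hQ : M.Q X q.1 q.2.1 q.2.2 with _ | v
  · have : (bfs (fun y => cond (f (q.1, q.2.1, y)) (some ()) none) (q.2.2 + 1)).isSome = false := by
      rw [← Bool.not_eq_true, key]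
      rw [Q_eq_none] at hQ
      rintro ⟨y, h1, h2⟩
      have := hQ y h2
      omega
    rw [this]
    simp
  · rw [Q_eq_some] at hQ
    rw [key.2 hQ.1]
    simp only [cond_true, Part.mem_map_iff, Option.some.injEq, exists_eq_right]
    exact hQ.2

end RelBlumMeasure

end Pool.Agent.H84.Blum
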