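import Pool.Agent.H84.BlumTools

/-!
# The scheduling part of the construction
-/

namespace Pool.Agent.H84.Blum

variable (want : ℕ → List Bool → ℕ → Option Bool)

/-- The bit chosen after `β` by the first requirement `≥ k` that wants a bit; the requirement `e`
looks up to level `L (β.length - e)`. -/
def nextBit (L : ℕ → ℕ) (k : ℕ) (β : List Bool) : Bool :=
  (bfs (fun j => want (k + j) β (L (β.length - (k + j)))) (β.length + 1 - k)).getD false

/-- The construction that starts with `τ` and then respects only the requirements `≥ k`. -/
def build (L : ℕ → ℕ) (k : ℕ) (τ : List Bool) : ℕ → List Bool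
  | 0 => []
  | n + 1 => build L k τ n ++ [(τ[n]?).getD (nextBit want L k (build L k τ n))]

@[simp] theorem build_length (L : ℕ → ℕ) (k : ℕ) (τ : List Bool) (n : ℕ) :
    (build want L k τ n).length = n := by
  induction n with
  | zero => rfl
  | succ n ih => simp [build, ih]

theorem nextBit_congr {L L' : ℕ → ℕ} {k : ℕ} {β : List Bool}
    (h : ∀ m ≤ β.length - k, L m = L' m) : nextBit want L k β = nextBit want L' k β := by
  unfold nextBit
  congr 1
  apply bfs_congr
  intro m hm
  rw [h _ (by omega)]

theorem build_congr {L L' : ℕ → ℕ} {k : ℕ} {τ : List Bool} {n : ℕ}
    (h : ∀ m, m + k < n → L m = L' m) (hk : ∀ m, k < n → m + k < n → L m = L' m) :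
    build want L k τ n = build want L' k τ n := by
  induction n with
  | zero => rfl
  | succ n ih =>
    simp only [build]
    rw [ih (fun m hm => h m (by omega)) (fun m _ hm => h m (by omega))]
    by_cases hkn : k ≤ n
    · rw [nextBit_congr want (L := L) (L' := L')]
      intro m hm
      rw [build_length] at hm
      exact h m (by omega)
    · have : nextBit want L k (build want L' k τ n) = nextBit want L' k (build want L' k τ n) := by
        unfold nextBit
        rw [build_length]
        have : n + 1 - k = 0 := by omega
        rw [this]
        rfl
      rw [this]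

/-- the constructed set -/
def theSet (L : ℕ → ℕ) : Set ℕ := {n | (build want L 0 [] (n + 1))[n]? = some true}

theorem theSet_mem (L : ℕ → ℕ) (n : ℕ) :
    n ∈ theSet want L ↔ nextBit want L 0 (build want L 0 [] n) = true := by
  simp [theSet, build]

theorem pre_theSet (L : ℕ → ℕ) (n : ℕ) : pre (theSet want L) n = build want L 0 [] n := by
  classical
  induction n with
  | zero => rfl
  | succ n ih =>
    rw [pre_succ, ih]
    simp only [build]
    congr 2
    have := theSet_mem want L n
    by_cases h : n ∈ theSet want L
    · simp [h, this.1 h]
    · simp only [h, decide_false]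
      rw [this, Bool.not_eq_true] at h
      simp [h]

variable {want}

/-- every requirement acts only finitely often, and indeed stops wanting -/
theorem finite_want {L : ℕ → ℕ}
    (hfin : ∀ e (B : Set ℕ) n0, e ≤ n0 →
      (∀ n ≥ n0, ∀ b, want e (pre B n) (L (n - e)) = some b → (n ∈ B ↔ b = true)) →
      ∃ n1, ∀ n ≥ n1, want e (pre B n) (L (n - e)) = none) (e : ℕ) :
    ∃ n1, ∀ n ≥ n1, want e (pre (theSet want L) n) (L (n - e)) = none := by
  induction e using Nat.strong_induction_on with
  | _ e ih =>
    choose! N hN using ih
    refine hfin e _ (e + (Finset.range e).sup N) (by omega) ?_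
    intro n hn b hb
    rw [theSet_mem]
    rw [pre_theSet] at hb
    unfold nextBit
    rw [build_length]
    have h1 : bfs (fun j => want (0 + j) (build want L 0 [] n) (L (n - (0 + j)))) (n + 1 - 0)
        = some b := by
      rw [bfs_eq_some]
      refine ⟨e, by omega, by simpa using hb, ?_⟩
      intro k hk
      have h2 : N k ≤ (Finset.range e).sup N := Finset.le_sup (f := N) (Finset.mem_range.2 hk)
      have := hN k hk n (by omega)
      rw [pre_theSet] at this
      simpa using this
    rw [h1]
    simp

theorem exists_tail {L : ℕ → ℕ}
    (hfin : ∀ e (B : Set ℕ) n0, e ≤ n0 →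
      (∀ n ≥ n0, ∀ b, want e (pre B n) (L (n - e)) = some b → (n ∈ B ↔ b = true)) →
      ∃ n1, ∀ n ≥ n1, want e (pre B n) (L (n - e)) = none) (k : ℕ) :
    ∃ τ, ∀ n, build want L k τ n = pre (theSet want L) n := by
  classical
  choose N hN using finite_want hfin
  refine ⟨pre (theSet want L) (k + (Finset.range k).sup N), ?_⟩
  intro n
  induction n with
  | zero => rfl
  | succ n ih =>
    rw [build, ih, pre_succ]
    congr 2
    by_cases hn : n < k + (Finset.range k).sup N
    · rw [pre_getElem? _ hn]
      rfl
    · rw [List.getElem?_eq_none (by simpa using hn)]
      simp only [Option.getD_none]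
      have key : nextBit want L k (pre (theSet want L) n) =
          nextBit want L 0 (pre (theSet want L) n) := by
        unfold nextBit
        congr 1
        rw [pre_length]
        have hnone : ∀ j < k, want j (pre (theSet want L) n) (L (n - j)) = none := by
          intro j hj
          have h2 : N j ≤ (Finset.range k).sup N := Finset.le_sup (f := N) (Finset.mem_range.2 hj)
          exact hN j n (by omega)
        rcases hb : bfs (fun j => want (k + j) (pre (theSet want L) n) (L (n - (k + j))))
          (n + 1 - k) with _ | b
        · symm
          rw [bfs_eq_none] at hb ⊢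
          intro m hm
          by_cases hmk : m < k
          · simpa using hnone m hmk
          · have := hb (m - k) (by omega)
            rw [show k + (m - k) = 0 + m by omega] at this
            exact this
        · symm
          rw [bfs_eq_some] at hb ⊢
          obtain ⟨m, hm, h1, h2⟩ := hb
          refine ⟨k + m, by omega, by simpa using h1, ?_⟩
          intro j hj
          by_cases hjk : j < k
          · simpa using hnone j hjk
          · have := h2 (j - k) (by omega)
            rw [show k + (j - k) = 0 + j by omega] at this
            exact this
      rw [key]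
      have h3 := theSet_mem want L n
      rw [← pre_theSet] at h3
      by_cases h : n ∈ theSet want L
      · simp [h, h3.1 h]
      · simp only [h, decide_false]
        rw [h3, Bool.not_eq_true] at h
        exact h

end Pool.Agent.H84.Blum
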