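import Pool.Agent.H84.BlumFix

/-!
# The oracle-free search program and its cost
-/

namespace Pool.Agent.H84.Blum

open Encodable

theorem computable_of_total {α σ : Type*} [Primcodable α] [Primcodable σ] {f : α →. σ}
    (hf : Partrec f) (h : ∀ a, (f a).Dom) : Computable fun a => (f a).get (h a) :=
  hf.of_eq_tot fun a => Part.get_mem (h a)

section compact

variable (M : RelBlumMeasure) (u d : List Bool → ℕ → Option ℕ)

/-- the approximation `σ` shows that the cost is not `≤ t` -/
def noCost (i x t : ℕ) (σ : List Bool) : Bool :=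
  !(bfs (fun t' => cond (d σ (Nat.pair i (Nat.pair x t')) == some 0) none (some ())) (t + 1)).isSome

/-- there is a computation with code less than `y` along `σ` -/
def hasComp (i x : ℕ) (σ : List Bool) (y : ℕ) : Bool :=
  (bfs (fun z => (dec z).bind fun p =>
    cond (p.2 == x && isPre p.1 σ) (u p.1 (Nat.pair i x)) none) y).isSome

/-- the decidable condition found by the compactness search -/
def KK (i x t y : ℕ) : Bool := (allStr y).all fun σ => noCost d i x t σ || hasComp u i x σ y

variable {M u d}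

theorem noCost_iff {i x t : ℕ} {σ : List Bool} : noCost d i x t σ = true ↔
    ∀ t' ≤ t, d σ (Nat.pair i (Nat.pair x t')) = some 0 := by
  unfold noCost
  simp only [Bool.not_eq_true', Option.isSome_eq_false_iff, Option.isNone_iff_eq_none, bfs_eq_none]
  constructor
  · intro h t' ht'
    have := h t' (by omega)
    by_contra hc
    have h2 : (d σ (Nat.pair i (Nat.pair x t')) == some 0) = false := by simpa using hc
    rw [h2] at this
    simp at this
  · intro h t' ht'
    rw [h t' (by omega)]
    simp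

theorem hasComp_iff {i x y : ℕ} {σ : List Bool} : hasComp u i x σ y = true ↔
    ∃ z < y, ∃ τ v, dec z = some (τ, x) ∧ τ <+: σ ∧ u τ (Nat.pair i x) = some v := by
  unfold hasComp
  rw [bfs_isSome]
  constructor
  · rintro ⟨z, hz, h⟩
    rcases hd : dec z with _ | ⟨τ, x'⟩
    · rw [hd] at h; simp at h
    · rw [hd, Option.bind_some] at h
      rcases hc : (x' == x && isPre τ σ) with _ | _
      · simp only [hc, cond_false] at h; simp at h
      · simp only [hc, cond_true] at h
        rw [Bool.and_eq_true, beq_iff_eq, isPre_iff] at hc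
        obtain ⟨rfl, hc⟩ := hc
        obtain ⟨v, hv⟩ := Option.isSome_iff_exists.1 h
        exact ⟨z, hz, τ, v, hd, hc, hv⟩
  · rintro ⟨z, hz, τ, v, hd, hp, hv⟩
    refine ⟨z, hz, ?_⟩
    rw [hd, Option.bind_some]
    have : (x == x && isPre τ σ) = true := by
      rw [Bool.and_eq_true]; exact ⟨by simp, isPre_iff.2 hp⟩
    simp only [this, cond_true, hv, Option.isSome_some]

open Classical in
theorem exists_KK
    (hu : Approx (fun X p => M.phi p.unpair.1 X p.unpair.2) u)
    (hd : Approx (fun X p => Part.some (if p.unpair.2.unpair.2 ∈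
      M.cost p.unpair.1 X p.unpair.2.unpair.1 then 1 else 0)) d) (i x t : ℕ) :
    ∃ y, KK u d i x t y = true := by
  suffices h : ∃ N, ∀ X : Set ℕ, noCost d i x t (pre X N) = true ∨
      hasComp u i x (pre X N) (pre X N).length = true by
    obtain ⟨N, hN⟩ := h
    refine ⟨N, ?_⟩
    unfold KK
    rw [List.all_eq_true]
    intro σ hσ
    rw [mem_allStr] at hσ
    subst hσ
    have := hN (setOf' σ)
    rw [pre_setOf'] at this
    simpa using this
  refine compactness (P := fun σ => noCost d i x t σ = true ∨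
      hasComp u i x σ σ.length = true) ?_ ?_
  · rintro σ τ h (h1 | h1)
    · left
      rw [noCost_iff] at h1 ⊢
      exact fun t' ht' => hd.mono h (h1 t' ht')
    · right
      rw [hasComp_iff] at h1 ⊢
      obtain ⟨z, hz, ρ, v, h2, h3, h4⟩ := h1
      exact ⟨z, lt_of_lt_of_le hz h.length_le, ρ, v, h2, h3.trans h, h4⟩
  · intro X
    by_cases hc : ∃ t' ≤ t, t' ∈ M.cost i X x
    · obtain ⟨t', _, ht'⟩ := hc
      have hdom : (M.phi i X x).Dom := (M.dom_iff i X x).2 (Part.dom_iff_mem.2 ⟨t', ht'⟩)
      obtain ⟨v, hv⟩ := Part.dom_iff_mem.1 hdom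
      have hv' : v ∈ M.phi (Nat.pair i x).unpair.1 X (Nat.pair i x).unpair.2 := by simpa using hv
      obtain ⟨m, hm⟩ := hu.spec.1 hv'
      refine ⟨max m (encode (pre X m, x) + 1), Or.inr ?_⟩
      rw [hasComp_iff, pre_length]
      exact ⟨encode (pre X m, x), by omega, pre X m, v, dec_encode _,
        pre_prefix X (le_max_left _ _), hm⟩
    · push Not at hc
      have h1 : ∀ t' ≤ t, ∃ n, d (pre X n) (Nat.pair i (Nat.pair x t')) = some 0 := by
        intro t' ht'
        refine hd.spec.1 ?_
        simp [hc t' ht']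
      choose! f hf using h1
      refine ⟨(Finset.range (t + 1)).sup f, Or.inl ?_⟩
      rw [noCost_iff]
      intro t' ht'
      exact hd.mono (pre_prefix X (Finset.le_sup (f := f) (Finset.mem_range.2 (by omega))))
        (hf t' ht')

open Classical in
theorem KK_spec
    (hd : Approx (fun X p => Part.some (if p.unpair.2.unpair.2 ∈
      M.cost p.unpair.1 X p.unpair.2.unpair.1 then 1 else 0)) d) {i x t y : ℕ}
    (hK : KK u d i x t y = true) {X : Set ℕ} {t' : ℕ} (ht' : t' ≤ t) (hc : t' ∈ M.cost i X x) :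
    ∃ z < y, ∃ τ v, dec z = some (τ, x) ∧ τ <+: pre X y ∧ u τ (Nat.pair i x) = some v := by
  unfold KK at hK
  rw [List.all_eq_true] at hK
  have := hK (pre X y) (mem_allStr.2 (pre_length X y))
  rw [Bool.or_eq_true] at this
  rcases this with h | h
  · exfalso
    rw [noCost_iff] at h
    have h1 := hd.spec.2 ⟨y, h t' ht'⟩
    simp [hc] at h1
  · exact hasComp_iff.1 h

theorem beqOpt_comp {α : Type*} [Primcodable α] {f g : α → Option ℕ} (hf : Computable f)
    (hg : Computable g) : Computable fun a => f a == g a := by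
  have := Primrec.beq.to_comp.comp hf hg
  refine this.of_eq fun a => ?_
  rw [Bool.eq_iff_iff]
  simp

theorem noCost_comp (hd : Computable₂ d) :
    Computable fun r : (ℕ × ℕ × ℕ) × List Bool => noCost d r.1.1 r.1.2.1 r.1.2.2 r.2 := by
  have h1 : Computable fun s : ((ℕ × ℕ × ℕ) × List Bool) × ℕ =>
      Nat.pair s.1.1.1 (Nat.pair s.1.1.2.1 s.2) :=
    Primrec₂.natPair.to_comp.comp (Computable.fst.comp (Computable.fst.comp Computable.fst))
      (Primrec₂.natPair.to_comp.comp (Computable.fst.comp (Computable.snd.comp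
        (Computable.fst.comp Computable.fst))) Computable.snd)
  have h2 := hd.comp (Computable.snd.comp (Computable.fst (α := (ℕ × ℕ × ℕ) × List Bool)
    (β := ℕ))) h1
  have h3 := beqOpt_comp h2 (Computable.const (some 0))
  have h4 := Computable.cond h3 (Computable.const (none : Option Unit))
    (Computable.const (some ()))
  have h5 := bfs_comp h4.to₂ (Computable.succ.comp (Computable.snd.comp (Computable.snd.comp
    (Computable.fst (α := ℕ × ℕ × ℕ) (β := List Bool)))))
  exact Primrec.not.to_comp.comp (Primrec.option_isSome.to_comp.comp h5)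

theorem hasComp_comp (hu : Computable₂ u) :
    Computable fun r : (ℕ × ℕ × ℕ) × List Bool => hasComp u r.1.1 r.1.2.1 r.2 r.1.2.2 := by
  have h1 : Computable fun s : (((ℕ × ℕ × ℕ) × List Bool) × ℕ) × (List Bool × ℕ) =>
      s.1.1.1.2.1 :=
    Computable.fst.comp (Computable.snd.comp (Computable.fst.comp
      (Computable.fst.comp Computable.fst)))
  have h2 : Computable fun s : (((ℕ × ℕ × ℕ) × List Bool) × ℕ) × (List Bool × ℕ) =>
      Nat.pair s.1.1.1.1 s.1.1.1.2.1 :=
    Primrec₂.natPair.to_comp.comp (Computable.fst.comp (Computable.fst.comp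
      (Computable.fst.comp Computable.fst))) h1
  have h3 := hu.comp (Computable.fst.comp (Computable.snd
    (α := ((ℕ × ℕ × ℕ) × List Bool) × ℕ) (β := List Bool × ℕ))) h2
  have h4 := beqNat_comp (Computable.snd.comp (Computable.snd
    (α := ((ℕ × ℕ × ℕ) × List Bool) × ℕ) (β := List Bool × ℕ))) h1
  have h5 := isPre_comp.comp (Computable.fst.comp (Computable.snd
    (α := ((ℕ × ℕ × ℕ) × List Bool) × ℕ) (β := List Bool × ℕ)))
    (Computable.snd.comp (Computable.fst.comp Computable.fst))
  have h6 := Primrec.and.to_comp.comp h4 h5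
  have h7 := Computable.cond h6 h3 (Computable.const none)
  have h8 := cbind (dec_comp.comp (Computable.snd (α := (ℕ × ℕ × ℕ) × List Bool) (β := ℕ))) h7
  have h9 := bfs_comp h8.to₂ (Computable.snd.comp (Computable.snd.comp
    (Computable.fst (α := ℕ × ℕ × ℕ) (β := List Bool))))
  exact Primrec.option_isSome.to_comp.comp h9

theorem KK_comp (hu : Computable₂ u) (hd : Computable₂ d) :
    Computable fun r : (ℕ × ℕ × ℕ) × ℕ => KK u d r.1.1 r.1.2.1 r.1.2.2 r.2 := by
  have h1 : Computable fun s : ((ℕ × ℕ × ℕ) × ℕ) × List Bool =>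
      ((s.1.1, s.2) : (ℕ × ℕ × ℕ) × List Bool) :=
    (Computable.fst.comp Computable.fst).pair Computable.snd
  have h2 := (noCost_comp hd).comp h1
  have h3 : Computable fun s : ((ℕ × ℕ × ℕ) × ℕ) × List Bool =>
      (((s.1.1.1, s.1.1.2.1, s.1.2), s.2) : (ℕ × ℕ × ℕ) × List Bool) :=
    ((Computable.fst.comp (Computable.fst.comp Computable.fst)).pair
      ((Computable.fst.comp (Computable.snd.comp (Computable.fst.comp Computable.fst))).pair
      (Computable.snd.comp Computable.fst))).pair Computable.snd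
  have h4 := (hasComp_comp hu).comp h3
  have h5 := Primrec.or.to_comp.comp h2 h4
  have h6 := all_comp (allStr_comp.comp (Computable.snd (α := ℕ × ℕ × ℕ) (β := ℕ))) h5.to₂
  exact h6

end compact

section search

variable (M : RelBlumMeasure) (u : List Bool → ℕ → Option ℕ)

/-- the part of the set computed by the program `j` which is known at cost `y` -/
noncomputable def kn (j y : ℕ) : ℕ → List Bool
  | 0 => []
  | n + 1 => cond ((kn j y n).length == n)
      (Option.casesOn (M.Q ∅ j n y) (kn j y n) fun v => kn j y n ++ [v == 1]) (kn j y n)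

/-- one attempt of the search program -/
noncomputable def att (j i x y : ℕ) : Option ℕ :=
  bfs (fun z => (dec z).bind fun p =>
    cond (p.2 == x && (isPre p.1 (kn M j y y) || isPre (kn M j y y) p.1))
      (u p.1 (Nat.pair i x)) none) y

/-- the oracle-free search program -/
noncomputable def psi2 (p : ℕ × ℕ × ℕ) (x : ℕ) : Part ℕ :=
  Nat.rfindOpt fun y => att M u p.1 p.2.1 x (max x p.2.2 + y)

variable {M u}

theorem kn_spec {j y : ℕ} {B : Set ℕ} (hj : M.Computes j ∅ B) (n : ℕ) :
    ∃ m ≤ n, kn M j y n = pre B m ∧ (∀ k < m, M.Q ∅ j k y ≠ none) ∧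
      (m < n → M.Q ∅ j m y = none) := by
  classical
  induction n with
  | zero => exact ⟨0, le_rfl, rfl, by simp, by simp⟩
  | succ n ih =>
    obtain ⟨m, hmn, h1, h2, h3⟩ := ih
    simp only [kn]
    rw [h1, pre_length]
    by_cases hm : m = n
    · subst hm
      simp only [beq_self_eq_true, cond_true]
      rcases hQ : M.Q ∅ j m y with _ | v
      · exact ⟨m, by omega, rfl, h2, fun _ => hQ⟩
      · refine ⟨m + 1, le_rfl, ?_, ?_, by simp⟩
        · rw [pre_succ]
          simp only
          congr 2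
          rw [M.Q_eq_some] at hQ
          have := Part.mem_unique hQ.2 (hj m)
          rw [this]
          unfold charFn
          by_cases hB : m ∈ B <;> simp [hB]
        · intro k hk
          rcases Nat.lt_succ_iff_lt_or_eq.1 hk with h | rfl
          · exact h2 k h
          · rw [hQ]; simp
    · have hf : (m == n) = false := by simpa using hm
      rw [hf, cond_false]
      exact ⟨m, by omega, rfl, h2, fun _ => h3 (by omega)⟩

theorem att_eq_some {j i x y v : ℕ} (h : att M u j i x y = some v) :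
    ∃ z < y, ∃ σ, dec z = some (σ, x) ∧ (σ <+: kn M j y y ∨ kn M j y y <+: σ) ∧
      u σ (Nat.pair i x) = some v := by
  unfold att at h
  rw [bfs_eq_some] at h
  obtain ⟨z, hz, h, _⟩ := h
  rw [Option.bind_eq_some_iff] at h
  obtain ⟨⟨σ, x'⟩, hd, h⟩ := h
  rcases hc : (x' == x && (isPre σ (kn M j y y) || isPre (kn M j y y) σ)) with _ | _
  · simp only [hc, cond_false] at h; simp at h
  · simp only [hc, cond_true] at h
    rw [Bool.and_eq_true, Bool.or_eq_true, beq_iff_eq, isPre_iff, isPre_iff] at hc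
    obtain ⟨rfl, hc⟩ := hc
    exact ⟨z, hz, σ, hd, hc, h⟩

theorem att_isSome {j i x y z v : ℕ} (hz : z < y) {σ : List Bool} (hd : dec z = some (σ, x))
    (hc : σ <+: kn M j y y ∨ kn M j y y <+: σ) (hv : u σ (Nat.pair i x) = some v) :
    (att M u j i x y).isSome = true := by
  unfold att
  rw [bfs_isSome]
  refine ⟨z, hz, ?_⟩
  rw [hd, Option.bind_some]
  have : (x == x && (isPre σ (kn M j y y) || isPre (kn M j y y) σ)) = true := by
    rw [Bool.and_eq_true, Bool.or_eq_true, isPre_iff, isPre_iff]
    exact ⟨by simp, hc⟩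
  simp only [this, cond_true, hv, Option.isSome_some]

theorem prefix_or_prefix {X : Set ℕ} {σ : List Bool} {n m : ℕ} (h : σ <+: pre X n) :
    σ <+: pre X m ∨ pre X m <+: σ := by
  rcases le_total m n with hmn | hmn
  · exact List.prefix_or_prefix_of_prefix h (pre_prefix X hmn)
  · exact Or.inl (h.trans (pre_prefix X hmn))

theorem kn_comp : Computable fun r : (ℕ × ℕ) × ℕ => kn M r.1.1 r.1.2 r.2 := by
  have h1 : Computable fun s : ((ℕ × ℕ) × ℕ) × (ℕ × List Bool) => s.2.2.length == s.2.1 :=
    beqNat_comp (Computable.list_length.comp (Computable.snd.comp Computable.snd))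
      (Computable.fst.comp Computable.snd)
  have h2 : Computable fun s : ((ℕ × ℕ) × ℕ) × (ℕ × List Bool) =>
      ((s.1.1.1, s.2.1, s.1.1.2) : ℕ × ℕ × ℕ) :=
    (Computable.fst.comp (Computable.fst.comp Computable.fst)).pair
      ((Computable.fst.comp Computable.snd).pair
        (Computable.snd.comp (Computable.fst.comp Computable.fst)))
  have h3 := (M.Q_comp empty_comp).comp h2
  have h4 : Computable fun s : (((ℕ × ℕ) × ℕ) × (ℕ × List Bool)) × ℕ =>
      s.1.2.2 ++ [s.2 == 1] :=
    Primrec.list_concat.to_comp.comp (Computable.snd.comp (Computable.snd.comp Computable.fst))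
      (beqNat_comp Computable.snd (Computable.const 1))
  have h5 := Computable.option_casesOn h3 (Computable.snd.comp Computable.snd) h4.to₂
  have h6 := Computable.cond h1 h5 (Computable.snd.comp Computable.snd)
  have h7 := Computable.nat_rec (f := fun r : (ℕ × ℕ) × ℕ => r.2)
    (g := fun _ => ([] : List Bool)) Computable.snd (Computable.const []) h6.to₂
  refine h7.of_eq fun r => ?_
  obtain ⟨⟨j, y⟩, n⟩ := r
  simp only
  induction n with
  | zero => rfl
  | succ n ih =>
    simp only [kn]
    rw [← ih]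

theorem att_comp (hu : Computable₂ u) :
    Computable fun r : (ℕ × ℕ × ℕ) × ℕ => att M u r.1.1 r.1.2.1 r.1.2.2 r.2 := by
  have h0 : Computable fun s : (((ℕ × ℕ × ℕ) × ℕ) × ℕ) × (List Bool × ℕ) =>
      (((s.1.1.1.1, s.1.1.2), s.1.1.2) : (ℕ × ℕ) × ℕ) :=
    ((Computable.fst.comp (Computable.fst.comp (Computable.fst.comp Computable.fst))).pair
      (Computable.snd.comp (Computable.fst.comp Computable.fst))).pair
      (Computable.snd.comp (Computable.fst.comp Computable.fst))
  have hk := (kn_comp (M := M)).comp h0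
  have h1 : Computable fun s : (((ℕ × ℕ × ℕ) × ℕ) × ℕ) × (List Bool × ℕ) =>
      s.1.1.1.2.2 :=
    Computable.snd.comp (Computable.snd.comp (Computable.fst.comp
      (Computable.fst.comp Computable.fst)))
  have h2 : Computable fun s : (((ℕ × ℕ × ℕ) × ℕ) × ℕ) × (List Bool × ℕ) =>
      Nat.pair s.1.1.1.2.1 s.1.1.1.2.2 :=
    Primrec₂.natPair.to_comp.comp (Computable.fst.comp (Computable.snd.comp
      (Computable.fst.comp (Computable.fst.comp Computable.fst)))) h1
  have hp := Computable.fst.comp (Computable.snd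
    (α := ((ℕ × ℕ × ℕ) × ℕ) × ℕ) (β := List Bool × ℕ))
  have h3 := hu.comp hp h2
  have h4 := beqNat_comp (Computable.snd.comp (Computable.snd
    (α := ((ℕ × ℕ × ℕ) × ℕ) × ℕ) (β := List Bool × ℕ))) h1
  have h5 := isPre_comp.comp hp hk
  have h5' := isPre_comp.comp hk hp
  have h6 := Primrec.and.to_comp.comp h4 (Primrec.or.to_comp.comp h5 h5')
  have h7 := Computable.cond h6 h3 (Computable.const none)
  have h8 := cbind (dec_comp.comp (Computable.snd (α := (ℕ × ℕ × ℕ) × ℕ) (β := ℕ))) h7
  have h9 := bfs_comp h8.to₂ (Computable.snd (α := ℕ × ℕ × ℕ) (β := ℕ))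
  exact h9

/-- the arguments of an attempt -/
theorem att_comp' (hu : Computable₂ u) :
    Computable fun r : ((ℕ × ℕ × ℕ) × ℕ) × ℕ =>
      att M u r.1.1.1 r.1.1.2.1 r.1.2 (max r.1.2 r.1.1.2.2 + r.2) := by
  have h1 : Computable fun r : ((ℕ × ℕ × ℕ) × ℕ) × ℕ =>
      (((r.1.1.1, r.1.1.2.1, r.1.2), max r.1.2 r.1.1.2.2 + r.2) : (ℕ × ℕ × ℕ) × ℕ) := by
    refine Computable.pair ?_ ?_
    · exact (Computable.fst.comp (Computable.fst.comp Computable.fst)).pair
        ((Computable.fst.comp (Computable.snd.comp (Computable.fst.comp Computable.fst))).pair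
          (Computable.snd.comp Computable.fst))
    · exact Primrec.nat_add.to_comp.comp (Primrec.nat_max.to_comp.comp
        (Computable.snd.comp Computable.fst)
        (Computable.snd.comp (Computable.snd.comp (Computable.fst.comp Computable.fst))))
        Computable.snd
  have h2 := (att_comp (M := M) hu).comp h1
  exact h2

theorem psi2_partrec (hu : Computable₂ u) : Partrec₂ (psi2 M u) := by
  have h := Partrec.rfindOpt (att_comp' (M := M) hu).to₂
  exact h

end search

/-- The function `g`. -/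
theorem exists_g (M : RelBlumMeasure) {u : List Bool → ℕ → Option ℕ}
    (hu : Approx (fun X p => M.phi p.unpair.1 X p.unpair.2) u) :
    ∃ g : ℕ → ℕ → ℕ, Computable₂ g ∧ ∀ j i y1, ∃ j',
      (∀ X x, M.phi j' X x = psi2 M u (j, i, y1) x) ∧
      ∃ N, ∀ x ≥ N, ∀ (B : Set ℕ) (t t' : ℕ), M.Computes j ∅ B → t' ∈ M.cost i B x → t' ≤ t →
        ∃ y ∈ M.cost j' ∅ x, y ≤ g x t := by
  classical
  obtain ⟨d, hd⟩ := M.cost_dec.approx
  obtain ⟨S, hS, hS2⟩ := M.smn (psi2_partrec (M := M) hu.comp)
  -- the compactness bound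
  have hr1 : Partrec fun q : ℕ × ℕ × ℕ =>
      Nat.rfind fun y => (Part.some (KK u d q.1 q.2.1 q.2.2 y) : Part Bool) :=
    Partrec.rfind (KK_comp hu.comp hd.comp).to₂.partrec₂
  have hr2 : ∀ q : ℕ × ℕ × ℕ,
      (Nat.rfind fun y => (Part.some (KK u d q.1 q.2.1 q.2.2 y) : Part Bool)).Dom := by
    intro q
    obtain ⟨y, hy⟩ := exists_KK hu hd q.1 q.2.1 q.2.2
    obtain ⟨n, hn, _⟩ := Nat.rfind_min' (p := fun y => KK u d q.1 q.2.1 q.2.2 y) hy
    exact Part.dom_iff_mem.2 ⟨n, hn⟩
  have hr3 := computable_of_total hr1 hr2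
  let r : ℕ × ℕ × ℕ → ℕ := fun q => (Nat.rfind fun y =>
    (Part.some (KK u d q.1 q.2.1 q.2.2 y) : Part Bool)).get (hr2 q)
  have hr : Computable r := hr3
  have hrK : ∀ i x t, KK u d i x t (r (i, x, t)) = true := by
    intro i x t
    have := Nat.rfind_spec (Part.get_mem (hr2 (i, x, t)))
    simp only [Part.mem_some_iff] at this
    exact this.symm
  -- the sum of the bounds
  have hR1 : Partrec fun q : ℕ × ℕ => psum (fun i => Part.some (r (i, q.1, q.2))) (q.1 + 1) := by
    refine psum_partrec (f := fun (q : ℕ × ℕ) i => Part.some (r (i, q.1, q.2))) ?_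
      (Computable.succ.comp Computable.fst)
    have : Computable fun s : (ℕ × ℕ) × ℕ => ((s.2, s.1.1, s.1.2) : ℕ × ℕ × ℕ) :=
      Computable.snd.pair ((Computable.fst.comp Computable.fst).pair
        (Computable.snd.comp Computable.fst))
    exact (hr.comp this).partrec
  have hR2 : ∀ q : ℕ × ℕ, (psum (fun i => Part.some (r (i, q.1, q.2))) (q.1 + 1)).Dom :=
    fun q => psum_dom fun _ _ => trivial
  have hR3 := computable_of_total hR1 hR2
  let R : ℕ × ℕ → ℕ := fun q => (psum (fun i => Part.some (r (i, q.1, q.2))) (q.1 + 1)).get (hR2 q)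
  have hR : Computable R := hR3
  have hRle : ∀ i x t, i ≤ x → r (i, x, t) ≤ R (x, t) := by
    intro i x t hix
    exact psum_le (Part.get_mem (hR2 (x, t))) (m := i) (by simpa using Nat.lt_succ_of_le hix)
      (Part.mem_some _)
  -- the cost of the search programs
  let dec3 : ℕ → ℕ × ℕ × ℕ := fun q => (decode (α := ℕ × ℕ × ℕ) q).getD (0, 0, 0)
  have hdec3 : Computable dec3 := Computable.option_getD Computable.decode (Computable.const _)
  have hdec3' : ∀ p, dec3 (encode p) = p := fun p => by simp only [dec3]; rw [encodek]; rfl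
  let C : ℕ × ℕ → ℕ → Bool := fun q w =>
    (bfs (fun y => att M u (dec3 w).1 (dec3 w).2.1 q.1 (max q.1 (dec3 w).2.2 + y)) q.2).isSome
  have hC : Computable₂ C := by
    have h1 : Computable fun s : ((ℕ × ℕ) × ℕ) × ℕ =>
        (((dec3 s.1.2, s.1.1.1), s.2) : ((ℕ × ℕ × ℕ) × ℕ) × ℕ) :=
      ((hdec3.comp (Computable.snd.comp Computable.fst)).pair
        (Computable.fst.comp (Computable.fst.comp Computable.fst))).pair Computable.snd
    have h2 := (att_comp' (M := M) hu.comp).comp h1
    have h3 := bfs_comp h2.to₂ (Computable.snd.comp (Computable.fst (α := ℕ × ℕ) (β := ℕ)))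
    exact Primrec.option_isSome.to_comp.comp h3
  have hCdom : ∀ q w, C q w = true → (M.cost (S (dec3 w)) ∅ q.1).Dom := by
    intro q w h
    rw [← M.dom_iff, hS2]
    simp only [C] at h
    rw [bfs_isSome] at h
    obtain ⟨y, _, hy⟩ := h
    obtain ⟨v, hv⟩ := Option.isSome_iff_exists.1 hy
    unfold psi2
    rw [Nat.rfindOpt_dom]
    exact ⟨y, v, hv⟩
  let f0 : ℕ × ℕ → ℕ →. ℕ := fun q w => cond (C q w) (M.cost (S (dec3 w)) ∅ q.1) (Part.some 0)
  have hf0 : Partrec₂ f0 := by
    have h1 : Computable fun s : (ℕ × ℕ) × ℕ => ((S (dec3 s.2), s.1.1) : ℕ × ℕ) :=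
      (hS.comp (hdec3.comp Computable.snd)).pair (Computable.fst.comp Computable.fst)
    exact Partrec.cond hC ((M.cost_partrec' empty_comp).comp h1) (Computable.const 0).partrec
  have hf0dom : ∀ q w, (f0 q w).Dom := by
    intro q w
    simp only [f0]
    rcases hc : C q w with _ | _
    · trivial
    · exact hCdom q w hc
  have hg1 : Partrec fun q : ℕ × ℕ => psum (f0 q) (q.1 + 1) :=
    psum_partrec hf0 (Computable.succ.comp Computable.fst)
  have hg2 : ∀ q : ℕ × ℕ, (psum (f0 q) (q.1 + 1)).Dom := fun q => psum_dom fun w _ => hf0dom q w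
  have hg3 := computable_of_total hg1 hg2
  let g0 : ℕ × ℕ → ℕ := fun q => (psum (f0 q) (q.1 + 1)).get (hg2 q)
  have hg0 : Computable g0 := hg3
  refine ⟨fun x t => g0 (x, R (x, t) + 1), ?_, ?_⟩
  · have h1 : Computable fun q : ℕ × ℕ => ((q.1, R q + 1) : ℕ × ℕ) :=
      Computable.fst.pair (Computable.succ.comp hR)
    exact hg0.comp h1
  · intro j i y1
    refine ⟨S (j, i, y1), fun X x => hS2 _ _ _, encode (j, i, y1) + i, ?_⟩
    intro x hx B t t' hj ht' htt'
    have hCt : C (x, R (x, t) + 1) (encode (j, i, y1)) = true := by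
      simp only [C, hdec3']
      rw [bfs_isSome]
      refine ⟨r (i, x, t), Nat.lt_succ_of_le (hRle i x t (by omega)), ?_⟩
      obtain ⟨z, hz, τ, v, h1, h2, h3⟩ := KK_spec hd (hrK i x t) htt' ht'
      obtain ⟨m, _, hm, _⟩ := kn_spec (y := max x y1 + r (i, x, t)) hj (max x y1 + r (i, x, t))
      refine att_isSome (z := z) (by omega) h1 ?_ h3
      rw [hm]
      exact prefix_or_prefix h2
    have hdom := hCdom _ _ hCt
    rw [hdec3'] at hdom
    obtain ⟨y, hy⟩ := Part.dom_iff_mem.1 hdom
    refine ⟨y, hy, ?_⟩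
    refine psum_le (Part.get_mem (hg2 (x, R (x, t) + 1))) (m := encode (j, i, y1)) ?_ ?_
    · simp only
      omega
    · simp only [f0, hCt, cond_true, hdec3']
      exact hy

end Pool.Agent.H84.Blum
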