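import Pool.Agent.H84.BlumApprox

/-!
# Tools: constant functionals, computable oracles, compactness of Cantor space
-/

namespace Pool.Agent.H84.Blum

theorem OraclePartrec.of_partrec {f : ℕ →. ℕ} (hf : Nat.Partrec f) :
    OraclePartrec fun _ => f := by
  induction hf with
  | zero => exact OraclePartrec.zero
  | succ => exact OraclePartrec.succ
  | left => exact OraclePartrec.left
  | right => exact OraclePartrec.right
  | pair _ _ ih1 ih2 => exact OraclePartrec.pair ih1 ih2
  | comp _ _ ih1 ih2 => exact OraclePartrec.comp ih1 ih2
  | prec _ _ ih1 ih2 => exact OraclePartrec.prec ih1 ih2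
  | rfind _ ih => exact OraclePartrec.rfind ih

theorem OraclePartrec.partrec {F : Set ℕ → ℕ →. ℕ} (hF : OraclePartrec F) {X : Set ℕ}
    (hX : ComputablePred fun n => n ∈ X) : Nat.Partrec (F X) := by
  induction hF with
  | zero => exact Nat.Partrec.zero
  | succ => exact Nat.Partrec.succ
  | left => exact Nat.Partrec.left
  | right => exact Nat.Partrec.right
  | oracle =>
    classical
    obtain ⟨_, h⟩ := hX
    refine Partrec.nat_iff.1 ?_
    have : Computable fun n => (cond (decide (n ∈ X)) 1 0 : ℕ) :=
      Computable.cond h (Computable.const _) (Computable.const _)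
    refine (show Computable _ from this).of_eq fun n => ?_
    by_cases hn : n ∈ X <;> simp [hn]
  | pair _ _ ih1 ih2 => exact Nat.Partrec.pair ih1 ih2
  | comp _ _ ih1 ih2 => exact Nat.Partrec.comp ih1 ih2
  | prec _ _ ih1 ih2 => exact Nat.Partrec.prec ih1 ih2
  | rfind _ ih => exact Nat.Partrec.rfind ih

/-- the set coded by a finite string -/
def setOf' (σ : List Bool) : Set ℕ := {m | σ[m]? = some true}

theorem pre_setOf' (σ : List Bool) : pre (setOf' σ) σ.length = σ := by
  classical
  apply List.ext_getElem?
  intro m
  by_cases h : m < σ.length
  · rw [pre_getElem? _ h]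
    rw [List.getElem?_eq_getElem h]
    congr 1
    simp only [setOf', Set.mem_ofPred_eq, List.getElem?_eq_getElem h, Option.some.injEq]
    cases σ[m] <;> simp
  · rw [List.getElem?_eq_none (by simpa using h), List.getElem?_eq_none (by simpa using h)]

/-- Compactness of Cantor space, for monotone properties of finite prefixes. -/
theorem compactness {P : List Bool → Prop}
    (mono : ∀ {σ τ : List Bool}, σ <+: τ → P σ → P τ)
    (h : ∀ X : Set ℕ, ∃ n, P (pre X n)) : ∃ N, ∀ X : Set ℕ, P (pre X N) := by
  classical
  let U : ℕ → Set (ℕ → Bool) := fun n => {f | P (pre {m | f m = true} n)}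
  have hopen : ∀ n, IsOpen (U n) := by
    intro n
    have hc : Continuous fun (f : ℕ → Bool) (m : Fin n) => f m := by
      fun_prop
    have : U n = (fun (f : ℕ → Bool) (m : Fin n) => f m) ⁻¹'
        {g | P (List.ofFn g)} := by
      ext f
      simp only [U, Set.mem_ofPred_eq, Set.mem_preimage]
      have : pre {m | f m = true} n = List.ofFn fun m : Fin n => f m := by
        apply List.ext_getElem
        · simp
        · intro i h1 h2
          simp [pre]
      rw [this]
    rw [this]
    exact (isOpen_discrete _).preimage hc
  have hcov : (Set.univ : Set (ℕ → Bool)) ⊆ ⋃ n, U n := by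
    intro f _
    obtain ⟨n, hn⟩ := h {m | f m = true}
    exact Set.mem_iUnion.2 ⟨n, hn⟩
  have hdir : Directed (· ⊆ ·) U := by
    intro a b
    refine ⟨max a b, fun f hf => ?_, fun f hf => ?_⟩
    · exact mono (pre_prefix _ (le_max_left _ _)) hf
    · exact mono (pre_prefix _ (le_max_right _ _)) hf
  obtain ⟨N, hN⟩ := isCompact_univ.elim_directed_cover U hopen hcov hdir
  refine ⟨N, fun X => ?_⟩
  have := hN (Set.mem_univ fun m => decide (m ∈ X))
  simpa [U] using this

/-- all binary strings of length `n` -/
def allStr : ℕ → List (List Bool)
  | 0 => [[]]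
  | n + 1 => (allStr n).flatMap fun σ => [σ ++ [false], σ ++ [true]]

theorem mem_allStr {n : ℕ} {σ : List Bool} : σ ∈ allStr n ↔ σ.length = n := by
  induction n generalizing σ with
  | zero => simp [allStr]
  | succ n ih =>
    simp only [allStr, List.mem_flatMap, List.mem_cons, List.not_mem_nil, or_false, ih]
    constructor
    · rintro ⟨τ, rfl, rfl | rfl⟩ <;> simp
    · intro h
      have hne : σ ≠ [] := by rintro rfl; simp at h
      refine ⟨σ.dropLast, by simp [h], ?_⟩
      have := List.dropLast_append_getLast hne
      cases hb : σ.getLast hne
      · left; rw [hb] at this; exact this.symm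
      · right; rw [hb] at this; exact this.symm

theorem allStr_comp : Computable allStr := by
  have h : Primrec (fun n : ℕ => (Nat.rec [[]] (fun _ L =>
      L.flatMap fun σ => [σ ++ [false], σ ++ [true]]) n : List (List Bool))) := by
    refine Primrec.nat_rec₁ (f := fun _ L => L.flatMap fun σ => [σ ++ [false], σ ++ [true]])
      [[]] ?_
    refine Primrec.list_flatMap Primrec.snd ?_
    refine Primrec.list_cons.comp (Primrec.list_append.comp Primrec.snd (Primrec.const _)) ?_
    refine Primrec.list_cons.comp (Primrec.list_append.comp Primrec.snd (Primrec.const _)) ?_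
    exact Primrec.const _
  refine h.to_comp.of_eq fun n => ?_
  induction n with
  | zero => rfl
  | succ n ih => simp only [allStr, ← ih]

/-- bounded universal quantification over a list, computably -/
theorem all_comp {α β : Type*} [Primcodable α] [Primcodable β] {f : α → List β}
    {p : α → β → Bool} (hf : Computable f) (hp : Computable₂ p) :
    Computable fun a => (f a).all (p a) := by
  have h : Computable fun a => bfs (fun n => ((f a)[n]?).bind fun b =>
      cond (p a b) none (some ())) (f a).length := by
    refine bfs_comp (f := fun a n => ((f a)[n]?).bind fun b => cond (p a b) none (some ())) ?_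
      (Computable.list_length.comp hf)
    refine Computable.option_bind ?_ ?_
    · exact Computable.list_getElem?.comp (hf.comp Computable.fst) Computable.snd
    · exact Computable.cond (hp.comp (Computable.fst.comp Computable.fst) Computable.snd)
        (Computable.const _) (Computable.const _)
  have h2 : Computable fun a => !(bfs (fun n => ((f a)[n]?).bind fun b =>
      cond (p a b) none (some ())) (f a).length).isSome :=
    Primrec.not.to_comp.comp (Primrec.option_isSome.to_comp.comp h)
  refine h2.of_eq fun a => ?_
  rw [Bool.eq_iff_iff]
  simp only [Bool.not_eq_true', Option.isSome_eq_false_iff, Option.isNone_iff_eq_none,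
    bfs_eq_none, List.all_eq_true]
  constructor
  · intro h b hb
    obtain ⟨n, hn, rfl⟩ := List.mem_iff_getElem.1 hb
    have := h n hn
    rw [List.getElem?_eq_getElem hn] at this
    by_contra hc
    rw [Bool.not_eq_true] at hc
    rw [Option.bind_some, hc] at this
    simp at this
  · intro h n hn
    rw [List.getElem?_eq_getElem hn]
    simp [h _ (List.getElem_mem hn)]

end Pool.Agent.H84.Blum
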