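import Pool.Agent.H84.BlumQ

/-!
# The two kinds of requirements
-/
namespace Pool.Agent.H84.Blum

open Encodable

theorem cbind {α β σ : Type*} [Primcodable α] [Primcodable β] [Primcodable σ]
    {f : α → Option β} {g : α × β → Option σ} (hf : Computable f) (hg : Computable g) :
    Computable fun a => (f a).bind fun b => g (a, b) := Computable.option_bind hf hg.to₂

theorem cmap {α β σ : Type*} [Primcodable α] [Primcodable β] [Primcodable σ]
    {f : α → Option β} {g : α × β → σ} (hf : Computable f) (hg : Computable g) :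
    Computable fun a => (f a).map fun b => g (a, b) := Computable.option_map hf hg.to₂

section D

variable (q : ℕ → ℕ → ℕ → Option ℕ)

/-- the requirement `i` has already been met on `β` -/
def satD (i : ℕ) (β : List Bool) (ℓ : ℕ) : Option Unit :=
  bfs (fun m => (q i m ℓ).bind fun v => (β[m]?).bind fun b =>
    cond (v == b.toNat) none (some ())) β.length

/-- the bit wanted by the diagonalisation requirement `i` -/
def wantD (i : ℕ) (β : List Bool) (ℓ : ℕ) : Option Bool :=
  cond (satD q i β ℓ).isSome none ((q i β.length ℓ).map fun v => !(v == 1))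

variable {q}

theorem boolToNat_comp : Computable Bool.toNat := (Primrec.dom_bool _).to_comp

theorem beqNat_comp {α : Type*} [Primcodable α] {f g : α → ℕ} (hf : Computable f)
    (hg : Computable g) : Computable fun a => f a == g a :=
  Primrec.beq.to_comp.comp hf hg

theorem satD_comp {q : ℕ → ℕ → ℕ → Option ℕ}
    (hq : Computable fun r : ℕ × ℕ × ℕ => q r.1 r.2.1 r.2.2) :
    Computable fun r : ℕ × List Bool × ℕ => satD q r.1 r.2.1 r.2.2 := by
  have h1 : Computable fun s : (((ℕ × List Bool × ℕ) × ℕ) × ℕ) × Bool =>
      (cond (s.1.2 == s.2.toNat) none (some ()) : Option Unit) :=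
    Computable.cond (beqNat_comp (Computable.snd.comp Computable.fst)
      (boolToNat_comp.comp Computable.snd)) (Computable.const _) (Computable.const _)
  have h2 : Computable fun s : ((ℕ × List Bool × ℕ) × ℕ) × ℕ => s.1.1.2.1[s.1.2]? :=
    Computable.list_getElem?.comp
          (Computable.fst.comp (Computable.snd.comp (Computable.fst.comp Computable.fst)))
          (Computable.snd.comp Computable.fst)
  have h3 := cbind h2 h1
  have h4 : Computable fun s : (ℕ × List Bool × ℕ) × ℕ => q s.1.1 s.2 s.1.2.2 := by
    have h := hq.comp ((Computable.fst.comp (Computable.fst (α := ℕ × List Bool × ℕ)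
      (β := ℕ))).pair
        (Computable.snd.pair (Computable.snd.comp (Computable.snd.comp Computable.fst))))
    exact h
  have h5 := cbind h4 h3
  have h6 := bfs_comp h5.to₂ (n := fun r : ℕ × List Bool × ℕ => r.2.1.length)
    (Computable.list_length.comp (Computable.fst.comp Computable.snd))
  exact h6

theorem wantD_comp {q : ℕ → ℕ → ℕ → Option ℕ}
    (hq : Computable fun r : ℕ × ℕ × ℕ => q r.1 r.2.1 r.2.2) :
    Computable fun r : ℕ × List Bool × ℕ => wantD q r.1 r.2.1 r.2.2 := by
  have h1 : Computable fun r : ℕ × List Bool × ℕ => q r.1 r.2.1.length r.2.2 := by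
    have h := hq.comp ((Computable.fst (α := ℕ) (β := List Bool × ℕ)).pair
      ((Computable.list_length.comp (Computable.fst.comp Computable.snd)).pair
        (Computable.snd.comp Computable.snd)))
    exact h
  have h2 : Computable fun s : (ℕ × List Bool × ℕ) × ℕ => !(s.2 == 1) :=
    Primrec.not.to_comp.comp (beqNat_comp Computable.snd (Computable.const 1))
  have h3 := cmap h1 h2
  have h4 := Primrec.option_isSome.to_comp.comp (satD_comp hq)
  have h5 := Computable.cond h4 (Computable.const none) h3
  exact h5

theorem satD_isSome {i : ℕ} {β : List Bool} {ℓ : ℕ} :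
    (satD q i β ℓ).isSome = true ↔
      ∃ m v b, β[m]? = some b ∧ q i m ℓ = some v ∧ v ≠ b.toNat := by
  unfold satD
  rw [bfs_isSome]
  constructor
  · rintro ⟨m, hm, h⟩
    rcases hv : q i m ℓ with _ | v
    · simp [hv] at h
    · rcases hb : β[m]? with _ | b
      · simp [hb] at h
      · refine ⟨m, v, b, hb, hv, ?_⟩
        rintro rfl
        simp [hv, hb] at h
  · rintro ⟨m, v, b, hb, hv, hne⟩
    refine ⟨m, (List.getElem?_eq_some_iff.1 hb).1, ?_⟩
    have : (v == b.toNat) = false := by simpa using hne
    simp [hv, hb, this]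

theorem satD_pre {i : ℕ} {B : Set ℕ} {n ℓ : ℕ} :
    (satD q i (pre B n) ℓ).isSome = true ↔
      ∃ m < n, ∃ v, q i m ℓ = some v ∧ v ≠ charFn B m := by
  classical
  rw [satD_isSome]
  constructor
  · rintro ⟨m, v, b, hb, hv, hne⟩
    have hlt : m < n := by simpa using (List.getElem?_eq_some_iff.1 hb).1
    rw [pre_getElem? _ hlt] at hb
    refine ⟨m, hlt, v, hv, ?_⟩
    rw [Option.some.injEq] at hb
    subst hb
    unfold charFn
    by_cases h : m ∈ B <;> simp [h] at hne ⊢ <;> exact hne
  · rintro ⟨m, hlt, v, hv, hne⟩
    refine ⟨m, v, decide (m ∈ B), pre_getElem? _ hlt, hv, ?_⟩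
    unfold charFn at hne
    by_cases h : m ∈ B <;> simp [h] at hne ⊢ <;> exact hne

/-- a diagonalisation requirement stops acting -/
theorem wantD_fin (hmono : ∀ i x ℓ ℓ' v, ℓ ≤ ℓ' → q i x ℓ = some v → q i x ℓ' = some v)
    {i : ℕ} {B : Set ℕ} {L : ℕ → ℕ} (hL : Monotone L) {n0 : ℕ}
    (h : ∀ n ≥ n0, ∀ b, wantD q i (pre B n) (L n) = some b → (n ∈ B ↔ b = true)) :
    ∃ n1, ∀ n ≥ n1, wantD q i (pre B n) (L n) = none := by
  classical
  by_cases hex : ∃ n ≥ n0, ∃ b, wantD q i (pre B n) (L n) = some b
  · obtain ⟨n, hn, b, hb⟩ := hex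
    have hB := h n hn b hb
    refine ⟨n + 1, fun m hm => ?_⟩
    have hsat : (satD q i (pre B m) (L m)).isSome = true := by
      rw [satD_pre]
      unfold wantD at hb
      rcases hs : (satD q i (pre B n) (L n)).isSome with _ | _
      · rw [hs, cond_false, Option.map_eq_some_iff] at hb
        obtain ⟨v, hv, hvb⟩ := hb
        rw [pre_length] at hv
        refine ⟨n, by omega, v, hmono _ _ _ _ _ (hL (by omega)) hv, ?_⟩
        unfold charFn
        subst hvb
        by_cases hv1 : v = 1
        · simp only [hv1, beq_self_eq_true, Bool.not_true, Bool.false_eq_true, iff_false] at hB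
          simp [hB, hv1]
        · have : (v == 1) = false := by simpa using hv1
          simp only [this, Bool.not_false, iff_true] at hB
          simp [hB, hv1]
      · rw [hs] at hb
        simp at hb
    unfold wantD
    rw [hsat]
    rfl
  · push Not at hex
    refine ⟨n0, fun n hn => ?_⟩
    rcases hw : wantD q i (pre B n) (L n) with _ | b
    · rfl
    · exact absurd hw (hex n hn b)

theorem wantD_none {i : ℕ} {B : Set ℕ} {n ℓ : ℕ} (h : wantD q i (pre B n) ℓ = none)
    (hc : ∀ m v, q i m ℓ = some v → v = charFn B m) : q i n ℓ = none := by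
  unfold wantD at h
  rcases hs : (satD q i (pre B n) ℓ).isSome with _ | _
  · rw [hs, cond_false, Option.map_eq_none_iff, pre_length] at h
    exact h
  · rw [satD_pre] at hs
    obtain ⟨m, _, v, hv, hne⟩ := hs
    exact absurd (hc m v hv) hne

end D

section R

/-- decoding of pairs (string, number) -/
def dec (z : ℕ) : Option (List Bool × ℕ) := decode z

theorem dec_comp : Computable dec := Computable.decode

theorem dec_encode (p : List Bool × ℕ) : dec (encode p) = some p := encodek p

attribute [irreducible] dec

/-- `σ` is a prefix of `τ` -/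
def isPre (σ τ : List Bool) : Bool := decide (σ = τ.take σ.length)

theorem isPre_comp : Computable₂ isPre := by
  have h : PrimrecPred fun r : List Bool × List Bool => (r.1 = r.2.take r.1.length) :=
    Primrec.eq.comp Primrec.fst
      (Primrec.list_take.comp (Primrec.list_length.comp Primrec.fst) Primrec.snd)
  exact h.decide.to_comp

theorem isPre_iff {σ τ : List Bool} : isPre σ τ = true ↔ σ <+: τ := by
  simp [isPre, List.prefix_iff_eq_take]

variable (u : List Bool → ℕ → Option ℕ) (a : ℕ → ℕ)

/-- the string `σ` yields a value different from `a x` for the program `i` at `x` -/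
def wrong (i : ℕ) (σ : List Bool) (x : ℕ) : Option Unit :=
  (u σ (Nat.pair i x)).bind fun v => cond (v == a x) none (some ())

/-- `z` codes a string below `β` on which the program `i` is wrong -/
def satR (i : ℕ) (β : List Bool) (z : ℕ) : Option Unit :=
  (dec z).bind fun p => cond (isPre p.1 β) (wrong u a i p.1 p.2) none

/-- `z` codes a proper extension of `β` on which the program `i` is wrong; the next bit of it -/
def candR (i : ℕ) (β : List Bool) (z : ℕ) : Option Bool :=
  (dec z).bind fun p => cond (isPre β p.1)
    ((wrong u a i p.1 p.2).bind fun _ => p.1[β.length]?) none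

/-- the bit wanted by the requirement which tries to make the program `i` wrong -/
def wantR (i : ℕ) (β : List Bool) (ℓ : ℕ) : Option Bool :=
  cond (bfs (satR u a i β) ℓ).isSome none (bfs (candR u a i β) ℓ)

variable {u a}

theorem wrong_comp (hu : Computable₂ u) (ha : Computable a) :
    Computable fun r : ℕ × List Bool × ℕ => wrong u a r.1 r.2.1 r.2.2 := by
  have h1 : Computable fun r : ℕ × List Bool × ℕ => u r.2.1 (Nat.pair r.1 r.2.2) :=
    hu.comp (Computable.fst.comp Computable.snd)
      (Primrec₂.natPair.to_comp.comp Computable.fst (Computable.snd.comp Computable.snd))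
  have h2 : Computable fun s : (ℕ × List Bool × ℕ) × ℕ =>
      (cond (s.2 == a s.1.2.2) none (some ()) : Option Unit) :=
    Computable.cond (beqNat_comp Computable.snd
      (ha.comp (Computable.snd.comp (Computable.snd.comp Computable.fst))))
      (Computable.const _) (Computable.const _)
  have h3 := cbind h1 h2
  exact h3

theorem satR_comp (hu : Computable₂ u) (ha : Computable a) :
    Computable fun r : (ℕ × List Bool × ℕ) × ℕ => satR u a r.1.1 r.1.2.1 r.2 := by
  have h1 : Computable fun s : ((ℕ × List Bool × ℕ) × ℕ) × (List Bool × ℕ) =>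
      isPre s.2.1 s.1.1.2.1 :=
    isPre_comp.comp (Computable.fst.comp Computable.snd)
      (Computable.fst.comp (Computable.snd.comp (Computable.fst.comp Computable.fst)))
  have h2 : Computable fun s : ((ℕ × List Bool × ℕ) × ℕ) × (List Bool × ℕ) =>
      wrong u a s.1.1.1 s.2.1 s.2.2 := by
    have h := (wrong_comp hu ha).comp
      ((Computable.fst.comp (Computable.fst.comp (Computable.fst (α := (ℕ × List Bool × ℕ) × ℕ)
        (β := List Bool × ℕ)))).pair Computable.snd)
    exact h
  have h0 : Computable fun r : (ℕ × List Bool × ℕ) × ℕ => dec r.2 := dec_comp.comp Computable.snd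
  have h3 : Computable fun s : ((ℕ × List Bool × ℕ) × ℕ) × (List Bool × ℕ) =>
      (cond (isPre s.2.1 s.1.1.2.1) (wrong u a s.1.1.1 s.2.1 s.2.2) none : Option Unit) :=
    Computable.cond h1 h2 (Computable.const none)
  have h4 := cbind h0 h3
  exact h4

theorem candR_comp (hu : Computable₂ u) (ha : Computable a) :
    Computable fun r : (ℕ × List Bool × ℕ) × ℕ => candR u a r.1.1 r.1.2.1 r.2 := by
  have h00 : Computable fun r : (ℕ × List Bool × ℕ) × ℕ => dec r.2 := dec_comp.comp Computable.snd
  have h0 : Computable fun s : ((ℕ × List Bool × ℕ) × ℕ) × (List Bool × ℕ) => s.1.1.2.1 :=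
    Computable.fst.comp (Computable.snd.comp (Computable.fst.comp Computable.fst))
  have h1 : Computable fun s : ((ℕ × List Bool × ℕ) × ℕ) × (List Bool × ℕ) =>
      isPre s.1.1.2.1 s.2.1 :=
    isPre_comp.comp h0 (Computable.fst.comp Computable.snd)
  have h2 : Computable fun s : ((ℕ × List Bool × ℕ) × ℕ) × (List Bool × ℕ) =>
      wrong u a s.1.1.1 s.2.1 s.2.2 := by
    have h := (wrong_comp hu ha).comp
      ((Computable.fst.comp (Computable.fst.comp (Computable.fst (α := (ℕ × List Bool × ℕ) × ℕ)
        (β := List Bool × ℕ)))).pair Computable.snd)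
    exact h
  have h4 : Computable fun s : ((ℕ × List Bool × ℕ) × ℕ) × (List Bool × ℕ) =>
      s.2.1[s.1.1.2.1.length]? :=
    Computable.list_getElem?.comp (Computable.fst.comp Computable.snd)
      (Computable.list_length.comp h0)
  have h3 : Computable fun s : ((ℕ × List Bool × ℕ) × ℕ) × (List Bool × ℕ) =>
      (wrong u a s.1.1.1 s.2.1 s.2.2).bind fun _ => s.2.1[s.1.1.2.1.length]? := by
    have h5 := cbind h2 (h4.comp (Computable.fst (β := Unit)))
    exact h5
  have h5 : Computable fun s : ((ℕ × List Bool × ℕ) × ℕ) × (List Bool × ℕ) =>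
      (cond (isPre s.1.1.2.1 s.2.1) ((wrong u a s.1.1.1 s.2.1 s.2.2).bind fun _ =>
        s.2.1[s.1.1.2.1.length]?) none : Option Bool) :=
    Computable.cond h1 h3 (Computable.const none)
  have h6 := cbind h00 h5
  exact h6

theorem wantR_comp (hu : Computable₂ u) (ha : Computable a) :
    Computable fun r : ℕ × List Bool × ℕ => wantR u a r.1 r.2.1 r.2.2 := by
  have h1 : Computable fun r : ℕ × List Bool × ℕ => bfs (satR u a r.1 r.2.1) r.2.2 :=
    bfs_comp (f := fun (r : ℕ × List Bool × ℕ) z => satR u a r.1 r.2.1 z)
      (satR_comp hu ha).to₂ (Computable.snd.comp Computable.snd)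
  have h2 : Computable fun r : ℕ × List Bool × ℕ => bfs (candR u a r.1 r.2.1) r.2.2 :=
    bfs_comp (f := fun (r : ℕ × List Bool × ℕ) z => candR u a r.1 r.2.1 z)
      (candR_comp hu ha).to₂ (Computable.snd.comp Computable.snd)
  have h3 := Primrec.option_isSome.to_comp.comp h1
  have h4 := Computable.cond h3 (Computable.const none) h2
  exact h4

theorem wrong_isSome {i x : ℕ} {σ : List Bool} :
    (wrong u a i σ x).isSome = true ↔ ∃ v, u σ (Nat.pair i x) = some v ∧ v ≠ a x := by
  unfold wrong
  rcases h : u σ (Nat.pair i x) with _ | v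
  · simp
  · by_cases hv : v = a x
    · simp [hv]
    · have : (v == a x) = false := by simpa using hv
      simp [this, hv]

/-- `z` codes `(σ, x)` where `σ` makes the program `i` wrong at `x` -/
def Bad (u : List Bool → ℕ → Option ℕ) (a : ℕ → ℕ) (i z : ℕ) (σ : List Bool) : Prop :=
  ∃ x, dec z = some (σ, x) ∧ ∃ v, u σ (Nat.pair i x) = some v ∧ v ≠ a x

theorem satR_isSome {i z : ℕ} {β : List Bool} :
    (satR u a i β z).isSome = true ↔ ∃ σ, Bad u a i z σ ∧ σ <+: β := by
  unfold satR Bad
  rcases h : dec z with _ | ⟨σ, x⟩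
  · simp
  · simp only [Option.bind_some, Option.some.injEq, Prod.mk.injEq]
    by_cases hp : σ <+: β
    · rw [isPre_iff.2 hp, cond_true, wrong_isSome]
      constructor
      · rintro ⟨v, h1, h2⟩
        exact ⟨σ, ⟨x, ⟨rfl, rfl⟩, v, h1, h2⟩, hp⟩
      · rintro ⟨σ', ⟨x', ⟨rfl, rfl⟩, v, h1, h2⟩, _⟩
        exact ⟨v, h1, h2⟩
    · have : isPre σ β = false := by
        rw [← Bool.not_eq_true, isPre_iff]; exact hp
      rw [this, cond_false]
      simp only [Option.isSome_none, Bool.false_eq_true, false_iff, not_exists, not_and]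
      rintro σ' ⟨x', ⟨rfl, rfl⟩, _⟩ h'
      exact hp h'

theorem candR_eq_some {i z : ℕ} {β : List Bool} {b : Bool} :
    candR u a i β z = some b ↔ ∃ σ, Bad u a i z σ ∧ β <+: σ ∧ σ[β.length]? = some b := by
  unfold candR Bad
  rcases h : dec z with _ | ⟨σ, x⟩
  · simp
  · simp only [Option.bind_some, Option.some.injEq, Prod.mk.injEq]
    by_cases hp : β <+: σ
    · rw [isPre_iff.2 hp, cond_true, Option.bind_eq_some_iff]
      constructor
      · rintro ⟨_, hw, hb⟩
        have hw' : (wrong u a i σ x).isSome = true := by rw [hw]; rfl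
        rw [wrong_isSome] at hw'
        obtain ⟨v, h1, h2⟩ := hw'
        exact ⟨σ, ⟨x, ⟨rfl, rfl⟩, v, h1, h2⟩, hp, hb⟩
      · rintro ⟨σ', ⟨x', ⟨rfl, rfl⟩, v, h1, h2⟩, _, hb⟩
        have hw' : (wrong u a i σ x).isSome = true := wrong_isSome.2 ⟨v, h1, h2⟩
        obtain ⟨w, hw⟩ := Option.isSome_iff_exists.1 hw'
        exact ⟨w, hw, hb⟩
    · have : isPre β σ = false := by
        rw [← Bool.not_eq_true, isPre_iff]; exact hp
      rw [this, cond_false]
      simp only [reduceCtorEq, false_iff, not_exists, not_and]
      rintro σ' ⟨x', ⟨rfl, rfl⟩, _⟩ h'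
      exact absurd h' hp

theorem prefix_eq_or_getElem? {β σ : List Bool} (h : β <+: σ) :
    σ = β ∨ ∃ b, σ[β.length]? = some b := by
  obtain ⟨t, rfl⟩ := h
  cases t with
  | nil => left; simp
  | cons b t => right; exact ⟨b, by simp⟩

/-- if the requirement `R_i` does not want anything and is not satisfied, then no extension in range
is wrong -/
theorem wantR_none {i n ℓ : ℕ} {B : Set ℕ} (h : wantR u a i (pre B n) ℓ = none)
    (hns : ∀ z σ, Bad u a i z σ → ¬ σ <+: pre B n) {z : ℕ} (hz : z < ℓ) {σ : List Bool}
    (hb : Bad u a i z σ) (hp : pre B n <+: σ) : False := by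
  unfold wantR at h
  rcases hs : (bfs (satR u a i (pre B n)) ℓ).isSome with _ | _
  · rw [hs, cond_false, bfs_eq_none] at h
    rcases prefix_eq_or_getElem? hp with h1 | ⟨b, h1⟩
    · exact hns z σ hb (by rw [h1])
    · have := h z hz
      have h2 := (candR_eq_some (u := u) (a := a) (i := i) (z := z) (β := pre B n) (b := b)).2
        ⟨σ, hb, hp, h1⟩
      rw [this] at h2
      simp at h2
  · rw [bfs_isSome] at hs
    obtain ⟨z', _, hz'⟩ := hs
    rw [satR_isSome] at hz'
    obtain ⟨σ', h1, h2⟩ := hz'
    exact hns _ _ h1 h2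

theorem Bad.unique {i z : ℕ} {σ τ : List Bool} (h : Bad u a i z σ) (h' : Bad u a i z τ) :
    σ = τ := by
  obtain ⟨x, h1, _⟩ := h
  obtain ⟨y, h2, _⟩ := h'
  rw [h1] at h2
  simp at h2
  exact h2.1

/-- the requirement `R_i` stops acting -/
theorem wantR_fin {i : ℕ} {B : Set ℕ} {L : ℕ → ℕ} (hL : Monotone L) {n0 : ℕ}
    (h : ∀ n ≥ n0, ∀ b, wantR u a i (pre B n) (L n) = some b → (n ∈ B ↔ b = true)) :
    ∃ n1, ∀ n ≥ n1, wantR u a i (pre B n) (L n) = none := by
  classical
  by_cases hex : ∃ n ≥ n0, ∃ b, wantR u a i (pre B n) (L n) = some b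
  · obtain ⟨n, hn, b, hb⟩ := hex
    -- a candidate at stage `n`
    have hc : ∃ z0 < L n, ∃ σ, Bad u a i z0 σ ∧ pre B n <+: σ := by
      unfold wantR at hb
      rcases hs : (bfs (satR u a i (pre B n)) (L n)).isSome with _ | _
      · rw [hs, cond_false, bfs_eq_some] at hb
        obtain ⟨z0, hz0, h1, _⟩ := hb
        rw [candR_eq_some] at h1
        obtain ⟨σ, h1, h2, _⟩ := h1
        exact ⟨z0, hz0, σ, h1, h2⟩
      · rw [hs] at hb
        simp at hb
    obtain ⟨z0, hz0, σ0, hσ0, hp0⟩ := hc
    have main : ∀ m ≥ n, (∃ z < L m, ∃ σ, Bad u a i z σ ∧ σ <+: pre B m) ∨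
        (∃ z ≤ z0, z < L m ∧ ∃ σ, Bad u a i z σ ∧ pre B m <+: σ) := by
      intro m hm
      induction m, hm using Nat.le_induction with
      | base => exact Or.inr ⟨z0, le_rfl, hz0, σ0, hσ0, hp0⟩
      | succ m hm ih =>
        have hLm : L m ≤ L (m + 1) := hL (Nat.le_succ m)
        rcases ih with ⟨z, hz, σ, h1, h2⟩ | ⟨z, hz, hzL, σ, h1, h2⟩
        · exact Or.inl ⟨z, by omega, σ, h1, h2.trans (pre_prefix B (Nat.le_succ m))⟩
        · rcases hs : (bfs (satR u a i (pre B m)) (L m)).isSome with _ | _
          · rcases prefix_eq_or_getElem? h2 with h3 | ⟨b, h3⟩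
            · refine Or.inl ⟨z, by omega, σ, h1, ?_⟩
              rw [h3]
              exact pre_prefix B (Nat.le_succ m)
            · have h4 : candR u a i (pre B m) z = some b := candR_eq_some.2 ⟨σ, h1, h2, h3⟩
              have h5 : (bfs (candR u a i (pre B m)) (L m)).isSome = true := by
                rw [bfs_isSome]
                exact ⟨z, hzL, by rw [h4]; rfl⟩
              obtain ⟨b', hb'⟩ := Option.isSome_iff_exists.1 h5
              have h6 : wantR u a i (pre B m) (L m) = some b' := by
                unfold wantR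
                rw [hs, cond_false, hb']
              have h7 := h m (by omega) b' h6
              rw [bfs_eq_some] at hb'
              obtain ⟨z', hz', h8, h9⟩ := hb'
              rw [candR_eq_some] at h8
              obtain ⟨σ', h10, h11, h12⟩ := h8
              have hzz : z' ≤ z := by
                by_contra hcon
                have := h9 z (by omega)
                rw [h4] at this
                simp at this
              refine Or.inr ⟨z', by omega, by omega, σ', h10, ?_⟩
              rw [pre_succ]
              obtain ⟨t, rfl⟩ := h11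
              cases t with
              | nil => simp at h12
              | cons c t =>
                rw [List.getElem?_append_right (by simp)] at h12
                simp only [pre_length, Nat.sub_self, List.getElem?_cons_zero,
                  Option.some.injEq] at h12
                subst h12
                have : decide (m ∈ B) = c := by
                  by_cases hmB : m ∈ B
                  · simp [hmB, h7.1 hmB]
                  · cases c
                    · simp [hmB]
                    · exact absurd (h7.2 rfl) hmB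
                rw [this]
                exact ⟨t, by simp⟩
          · rw [bfs_isSome] at hs
            obtain ⟨z', hz', h3⟩ := hs
            rw [satR_isSome] at h3
            obtain ⟨σ', h4, h5⟩ := h3
            exact Or.inl ⟨z', by omega, σ', h4, h5.trans (pre_prefix B (Nat.le_succ m))⟩
    -- lengths of candidates are bounded
    obtain ⟨K, hK⟩ : ∃ K, ∀ z ≤ z0, ∀ σ, Bad u a i z σ → σ.length ≤ K := by
      let f : ℕ → ℕ := fun z => ((dec z).elim 0 fun p => p.1.length)
      refine ⟨(Finset.range (z0 + 1)).sup f, fun z hz σ hσ => ?_⟩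
      obtain ⟨x, hx, _⟩ := hσ
      have : f z = σ.length := by simp only [f, hx, Option.elim_some]
      rw [← this]
      exact Finset.le_sup (f := f) (Finset.mem_range.2 (by omega))
    refine ⟨max n (K + 1), fun m hm => ?_⟩
    rcases main m (by omega) with ⟨z, hz, σ, h1, h2⟩ | ⟨z, hz, _, σ, h1, h2⟩
    · unfold wantR
      have : (bfs (satR u a i (pre B m)) (L m)).isSome = true := by
        rw [bfs_isSome]
        exact ⟨z, hz, satR_isSome.2 ⟨σ, h1, h2⟩⟩
      rw [this]
      rfl
    · have h3 := hK z hz σ h1
      have h4 := h2.length_le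
      rw [pre_length] at h4
      omega
  · push Not at hex
    refine ⟨n0, fun n hn => ?_⟩
    rcases hw : wantR u a i (pre B n) (L n) with _ | b
    · rfl
    · exact absurd hw (hex n hn b)

end R

end Pool.Agent.H84.Blum
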